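import Pool.Agent.J6H89.Dyn.Pairs

/-!
# The itineraries of a factor: all or nothing on exact period `n`
-/

namespace Pool.Agent.J6H89.Dyn

open Finset Polynomial

variable {K : Type*} [Field K]

theorem pt_periodic (n : ℕ) (S : Finset ℕ) (i : ℕ) : pt 0 n S (i + n) = pt 0 n S i := by
  simp [pt, idx]

/-- The periodic sequence coded by `S` has exact period `n`. -/
def Exact (n : ℕ) (S : Finset ℕ) : Prop :=
  ∀ d, d ∣ n → d < n → ¬ (∀ i, pt 0 n S (i + d) = pt 0 n S i)

theorem sumW_Per (n : ℕ) (A : Finset (Finset ℕ)) : Per n (sumW A (pt 0 n) : _ →ₗ[K] K) := by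
  intro φ ψ h
  rw [sumW_apply, sumW_apply]
  exact Finset.sum_congr rfl (fun S _ => h _ (pt_periodic n S))

theorem pt_eq_of_agree (n d : ℕ) (hn : 0 < n) (hdn : d ∣ n) (S T : Finset ℕ)
    (h : ∀ i < n, pt 0 d T i = pt 0 n S i) : ∀ i, pt 0 d T i = pt 0 n S i := by
  intro i
  have h1 := h (i % n) (Nat.mod_lt _ hn)
  have h2 : pt 0 d T (i % n) = pt 0 d T i := by
    simp [pt, idx, Nat.mod_mod_of_dvd i hdn]
  have h3 : pt 0 n S (i % n) = pt 0 n S i := by
    simp [pt, idx]
  rw [← h2, h1, h3]

/-- The set of itineraries of a polynomial over the polynomials in `z` contains all or none of the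
itineraries of exact period `n`. -/
theorem all_or_none (h2 : (2 : K) ≠ 0) (n : ℕ) (hn : 0 < n)
    (hinv : ∀ m : ℕ, 0 < m → m + 7 ≤ 2 ^ n → (m : K) ≠ 0)
    (A : Finset (Finset ℕ)) (hA : A ⊆ (range n).powerset)
    (hS : (sumW A (pt 0 n) : _ →ₗ[K] K) ∈ Sol K) :
    ∃ κ : K, ∀ S ⊆ range n, Exact n S → (if S ∈ A then (1 : K) else 0) = κ := by
  classical
  set W : ((ℕ → Bool) → K) →ₗ[K] K := sumW A (pt 0 n) with hW
  have hper : Per n W := sumW_Per n A
  set g : ℕ → K := fun m => if m < n then P W 0 m else W (chi ∅) with hg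
  obtain ⟨f, hf⟩ := exists_moebius g
  set U : ((ℕ → Bool) → K) →ₗ[K] K := ∑ d ∈ n.divisors, f d • nu 0 d with hU
  have hUa : ∀ ψ, U ψ = ∑ d ∈ n.divisors, f d * nu 0 d ψ := by
    intro ψ; rw [hU]; simp [LinearMap.sum_apply, LinearMap.smul_apply]
  have hUS : U ∈ Sol K := by
    refine Submodule.sum_mem _ (fun d hd => Submodule.smul_mem _ _ ?_)
    exact nu_mem_Sol h2 0 d (Nat.pos_of_mem_divisors hd)
  have hVS : W - U ∈ Sol K := Submodule.sub_mem _ hS hUS
  have hV0 : (W - U) (chi ∅) = 0 := by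
    rw [LinearMap.sub_apply, hUa]
    simp only [nu_empty h2, mul_one]
    rw [hf n hn, hg]
    simp
  have hVp : ∀ i j, i < j → j ≤ n - 1 → (W - U) (chi {i, j}) = 0 := by
    intro i j hij hj
    rw [LinearMap.sub_apply, hUa]
    have e1 : W (chi {i, j}) = P W i (j - i) := by
      rw [P]
      congr 1
      funext ε
      rw [chi_pair i j hij.ne, show i + (j - i) = j by omega]
    have hgpos : 0 < Nat.gcd n (j - i) := Nat.gcd_pos_of_pos_left _ hn
    have hgle : Nat.gcd n (j - i) ≤ j - i := Nat.gcd_le_right _ (by omega)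
    rw [e1, P_eq h2 n hinv hS hper i (j - i) (by omega) (by omega)]
    have e2 : ∑ d ∈ n.divisors, f d * nu 0 d (chi {i, j}) = ∑ d ∈ (Nat.gcd n (j - i)).divisors, f d := by
      have e3 : (Nat.gcd n (j - i)).divisors = n.divisors.filter (fun d => d ∣ j - i) := by
        ext d
        simp only [Finset.mem_filter, Nat.mem_divisors]
        constructor
        · rintro ⟨h, _⟩
          exact ⟨⟨h.trans (Nat.gcd_dvd_left _ _), hn.ne'⟩, h.trans (Nat.gcd_dvd_right _ _)⟩
        · rintro ⟨⟨h, _⟩, h'⟩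
          exact ⟨Nat.dvd_gcd h h', hgpos.ne'⟩
      rw [e3, Finset.sum_filter]
      refine Finset.sum_congr rfl (fun d hd => ?_)
      rw [nu_pair h2 0 d i j (Nat.pos_of_mem_divisors hd) hij]
      simp only [Nat.zero_le, true_and]
      split_ifs <;> simp
    rw [e2, hf _ hgpos, hg]
    simp only
    rw [if_pos (by omega), sub_self]
  refine ⟨f n * (1 / 2 : K) ^ n, fun S hSn hex => ?_⟩
  set φ : (ℕ → Bool) → K := fun ε => if (∀ i < n, ε i = pt 0 n S i) then 1 else 0 with hφ
  have hdep : Dep n φ := by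
    intro ε ε' h
    simp only [hφ]
    congr 1
    refine propext (forall_congr' (fun i => forall_congr' (fun hi => ?_)))
    rw [h i hi]
  have hz := elim h2 hVS (n - 1)
    (fun m hm hm' => hinv m hm (hm'.trans (Nat.pow_le_pow_right (by norm_num) (by omega))))
    hV0 hVp n (by omega) φ hdep
  rw [LinearMap.sub_apply, hUa, sub_eq_zero] at hz
  have hinj : ∀ T ⊆ range n, (∀ i < n, pt 0 n T i = pt 0 n S i) → T = S := by
    intro T hT h
    refine pt_injOn 0 n T S (by simpa using hT) (by simpa using hSn) ?_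
    exact funext (pt_eq_of_agree n n hn dvd_rfl S T h)
  have hWφ : W φ = if S ∈ A then (1 : K) else 0 := by
    rw [hW, sumW_apply]
    simp only [hφ]
    by_cases hSA : S ∈ A
    · rw [if_pos hSA, Finset.sum_eq_single S]
      · rw [if_pos (fun _ _ => rfl)]
      · intro T hT hne
        rw [if_neg]
        intro h
        exact hne (hinj T (Finset.mem_powerset.1 (hA hT)) h)
      · intro h; exact absurd hSA h
    · rw [if_neg hSA]
      refine Finset.sum_eq_zero (fun T hT => ?_)
      rw [if_neg]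
      intro h
      apply hSA
      rw [← hinj T (Finset.mem_powerset.1 (hA hT)) h]
      exact hT
  rw [← hWφ, hz, Finset.sum_eq_single n]
  · congr 1
    rw [nu_apply, zero_add, Finset.sum_eq_single S]
    · simp [hφ]
    · intro T hT hne
      simp only [hφ]
      rw [if_neg]
      intro h
      exact hne (hinj T (Finset.mem_powerset.1 hT) h)
    · intro h
      exact absurd (Finset.mem_powerset.2 hSn) h
  · intro d hd hne
    have hdn : d ∣ n := Nat.dvd_of_mem_divisors hd
    have hdlt : d < n := lt_of_le_of_ne (Nat.le_of_dvd hn hdn) hne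
    have : nu 0 d φ = 0 := by
      rw [nu_apply, Finset.sum_eq_zero, mul_zero]
      intro T _
      simp only [hφ]
      rw [if_neg]
      intro h
      have h3 := pt_eq_of_agree n d hn hdn S T h
      refine hex d hdn hdlt (fun i => ?_)
      rw [← h3, ← h3, pt_periodic]
    rw [this, mul_zero]
  · intro h
    exact absurd (Nat.mem_divisors_self n hn.ne') h

end Pool.Agent.J6H89.Dyn
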