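import Pool.Agent.J6H89.Dyn.Series

/-!
# Laurent series: a filtration, and the points at infinity
-/

namespace Pool.Agent.J6H89.Dyn

open Finset Polynomial

variable {K : Type*} [Field K]

/-- `FI m x`: all coefficients of `x` below `m` vanish. -/
def FI (m : ℤ) (x : LaurentSeries K) : Prop := ∀ k < m, x.coeff k = 0

theorem FI.mono {m n : ℤ} (h : n ≤ m) {x : LaurentSeries K} (hx : FI m x) : FI n x :=
  fun k hk => hx k (lt_of_lt_of_le hk h)

theorem FI.zero (m : ℤ) : FI m (0 : LaurentSeries K) := fun k _ => by simp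

theorem FI.add {m : ℤ} {x y : LaurentSeries K} (hx : FI m x) (hy : FI m y) : FI m (x + y) :=
  fun k hk => by simp [hx k hk, hy k hk]

theorem FI.sub {m : ℤ} {x y : LaurentSeries K} (hx : FI m x) (hy : FI m y) : FI m (x - y) :=
  fun k hk => by simp [hx k hk, hy k hk]

theorem FI.neg {m : ℤ} {x : LaurentSeries K} (hx : FI m x) : FI m (-x) :=
  fun k hk => by simp [hx k hk]

theorem FI.mul {m n : ℤ} {x y : LaurentSeries K} (hx : FI m x) (hy : FI n y) :
    FI (m + n) (x * y) := by
  intro k hk
  rw [HahnSeries.coeff_mul]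
  refine Finset.sum_eq_zero (fun ij hij => ?_)
  have h := (Finset.mem_antidiagonal.1 hij).2.2
  by_cases h1 : ij.1 < m
  · rw [hx _ h1, zero_mul]
  · rw [hy _ (by omega), mul_zero]

theorem FI.coeff_mul {m n : ℤ} {x y : LaurentSeries K} (hx : FI m x) (hy : FI n y) :
    (x * y).coeff (m + n) = x.coeff m * y.coeff n := by
  rw [HahnSeries.coeff_mul]
  by_cases hz : x.coeff m * y.coeff n = 0
  · rw [hz]
    refine Finset.sum_eq_zero (fun ij hij => ?_)
    have h := (Finset.mem_antidiagonal.1 hij).2.2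
    by_cases h1 : ij.1 < m
    · rw [hx _ h1, zero_mul]
    · by_cases h2 : ij.2 < n
      · rw [hy _ h2, mul_zero]
      · have h3 : ij.1 = m := by omega
        have h4 : ij.2 = n := by omega
        rw [h3, h4, hz]
  · rw [Finset.sum_eq_single (m, n)]
    · intro ij hij hne
      have h := (Finset.mem_antidiagonal.1 hij).2.2
      by_cases h1 : ij.1 < m
      · rw [hx _ h1, zero_mul]
      · by_cases h2 : ij.2 < n
        · rw [hy _ h2, mul_zero]
        · exfalso
          apply hne
          ext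
          · simp; omega
          · simp; omega
    · intro hij
      exfalso
      apply hij
      rw [Finset.mem_antidiagonal]
      refine ⟨?_, ?_, rfl⟩
      · exact left_ne_zero_of_mul hz
      · exact right_ne_zero_of_mul hz

theorem FI.single {m : ℤ} (r : K) : FI m (HahnSeries.single m r : LaurentSeries K) := by
  intro k hk
  exact HahnSeries.coeff_single_of_ne (ne_of_lt hk)

theorem FI.natCast_mul {m : ℤ} {x : LaurentSeries K} (hx : FI m x) (n : ℕ) :
    FI m ((n : LaurentSeries K) * x) := by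
  induction n with
  | zero => simpa using FI.zero m
  | succ n ih =>
    have : ((n + 1 : ℕ) : LaurentSeries K) * x = (n : LaurentSeries K) * x + x := by
      push_cast; ring
    rw [this]
    exact ih.add hx

/-- The value of `z`. -/
noncomputable def zL (K : Type*) [Field K] : LaurentSeries K :=
  HahnSeries.single (-2) (-1)

/-- Evaluation of polynomials in `z`. -/
noncomputable def ev (K : Type*) [Field K] : K[X] →+* LaurentSeries K :=
  Polynomial.eval₂RingHom (HahnSeries.C : K →+* LaurentSeries K) (zL K)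

/-- The point attached to a sequence. -/
noncomputable def X0 (ε : ℕ → Bool) : LaurentSeries K :=
  HahnSeries.single (-1) 1 * HahnSeries.ofPowerSeries ℤ K (us ε)

theorem X0_coeff (ε : ℕ → Bool) (m : ℕ) : (X0 ε : LaurentSeries K).coeff (m - 1) = cf K m ε := by
  rw [X0, HahnSeries.coeff_single_mul, one_mul]
  have : (m : ℤ) - 1 - -1 = (m : ℕ) := by ring
  rw [this, HahnSeries.ofPowerSeries_apply_coeff]
  simp [us]

theorem X0_FI (ε : ℕ → Bool) : FI (-1) (X0 ε : LaurentSeries K) := by
  intro k hk
  rw [X0, HahnSeries.coeff_single_mul, one_mul]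
  have h := PowerSeries.coeff_coe (us (K := K) ε) (k - -1)
  rw [if_pos (by omega)] at h
  exact h

theorem X0_coeff_neg_one (ε : ℕ → Bool) :
    (X0 ε : LaurentSeries K).coeff (-1) = sg K (ε 0) := by
  have := X0_coeff (K := K) ε 0
  simpa [cf_zero] using this

theorem X0_sq (h2 : (2 : K) ≠ 0) (ε : ℕ → Bool) :
    (X0 ε : LaurentSeries K) ^ 2 + zL K = X0 (sh ε) := by
  have h := congrArg (HahnSeries.ofPowerSeries ℤ K) (us_sq h2 ε)
  rw [map_mul, map_add, map_one, map_mul, HahnSeries.ofPowerSeries_X] at h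
  have e1 : (X0 ε : LaurentSeries K) ^ 2
      = HahnSeries.single (-2) 1 * (HahnSeries.ofPowerSeries ℤ K (us ε) *
        HahnSeries.ofPowerSeries ℤ K (us ε)) := by
    have : (HahnSeries.single (-2) (1 : K) : LaurentSeries K)
        = HahnSeries.single (-1) 1 * HahnSeries.single (-1) 1 := by
      rw [HahnSeries.single_mul_single]; norm_num
    rw [X0, this]; ring
  rw [e1, h, mul_add, mul_one, zL, X0, ← mul_assoc, HahnSeries.single_mul_single]
  have : (HahnSeries.single (-2) (-1 : K) : LaurentSeries K) = - HahnSeries.single (-2) 1 := by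
    rw [← HahnSeries.single_neg]
  rw [this]
  norm_num

/-- Two points whose sequences agree up to `N` are close. -/
theorem X0_sub_FI (N : ℕ) (ε ε' : ℕ → Bool) (h : ∀ i < N, ε i = ε' i) :
    FI (N - 1) (X0 ε - X0 ε' : LaurentSeries K) := by
  intro k hk
  by_cases hk1 : k < -1
  · rw [HahnSeries.coeff_sub, X0_FI ε k hk1, X0_FI ε' k hk1, sub_zero]
  · obtain ⟨m, hm⟩ : ∃ m : ℕ, k = m - 1 := ⟨(k + 1).toNat, by omega⟩
    subst hm
    rw [HahnSeries.coeff_sub, X0_coeff, X0_coeff,
      cf_congr m ε ε' (fun i hi => h i (by omega)), sub_self]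

theorem X0_sub_coeff (N : ℕ) (ε ε' : ℕ → Bool) (h : ∀ i < N, ε i = ε' i) :
    (X0 ε - X0 ε' : LaurentSeries K).coeff (N - 1)
      = (1 / 2 : K) ^ N * (∏ i ∈ range N, sg K (ε i)) * (sg K (ε N) - sg K (ε' N)) := by
  rw [HahnSeries.coeff_sub, X0_coeff, X0_coeff, cf_diff N ε ε' h]

theorem sh_iterate (ε : ℕ → Bool) (i j : ℕ) : (sh^[i] ε) j = ε (i + j) := by
  induction i generalizing ε with
  | zero => simp
  | succ i ih =>
    rw [Function.iterate_succ_apply, ih]
    change ε (i + j + 1) = _
    congr 1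
    omega

/-- The iterates of `x ^ 2 + z`, as polynomials in `x` over the polynomials in `z`. -/
noncomputable def it (R : Type*) [CommRing R] : ℕ → R[X][X]
  | 0 => X
  | (i + 1) => it R i ^ 2 + C X

theorem eval_it (h2 : (2 : K) ≠ 0) (ε : ℕ → Bool) (i : ℕ) :
    (it K i).eval₂ (ev K) (X0 ε) = X0 (sh^[i] ε) := by
  induction i with
  | zero => simp [it]
  | succ i ih =>
    rw [it, eval₂_add, eval₂_pow, ih, eval₂_C, Function.iterate_succ_apply', ← X0_sq h2]
    simp [ev]

theorem X0_injective (h2 : (2 : K) ≠ 0) (ε ε' : ℕ → Bool)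
    (h : (X0 ε : LaurentSeries K) = X0 ε') : ε = ε' := by
  funext i
  have h1 : (X0 (sh^[i] ε) : LaurentSeries K) = X0 (sh^[i] ε') := by
    rw [← eval_it h2, ← eval_it h2, h]
  have h3 := congrArg (fun x => HahnSeries.coeff x (-1)) h1
  simp only [X0_coeff_neg_one, sh_iterate, add_zero] at h3
  by_contra hne
  have h4 : (1 : K) ≠ -1 := by
    intro h5
    apply h2
    linear_combination h5
  cases h6 : ε i <;> cases h7 : ε' i <;> simp [sg, h6, h7] at h3 hne
  · exact h4 h3.symm
  · exact h4 h3

end Pool.Agent.J6H89.Dyn
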