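import Pool.Agent.J6H89.Dyn.Cls

/-!
# Dynatomic polynomials and their irreducibility over fields of large characteristic
-/

namespace Pool.Agent.J6H89.Dyn

open Finset Polynomial

/-- The product of the polynomials `f_z^d(x) - x` over the divisors `d` of `n` with
`μ (n / d) = 1`. -/
noncomputable def dynNum (n : ℕ) : ℤ[X][X] :=
  ∏ d ∈ n.divisors.filter (fun d => ArithmeticFunction.moebius (n / d) = 1), (it ℤ d - X)

/-- The product of the polynomials `f_z^d(x) - x` over the divisors `d` of `n` with
`μ (n / d) = -1`. -/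
noncomputable def dynDen (n : ℕ) : ℤ[X][X] :=
  ∏ d ∈ n.divisors.filter (fun d => ArithmeticFunction.moebius (n / d) = -1), (it ℤ d - X)

/-- The `n`-th dynatomic polynomial of `x ^ 2 + z`, in `ℤ[z][x]`: the quotient of the product of
the `f_z^d(x) - x` with `μ (n / d) = 1` by the product of those with `μ (n / d) = -1`. -/
noncomputable def dynatomic (n : ℕ) : ℤ[X][X] := dynNum n /ₘ dynDen n

theorem sum_moebius_mul (n m : ℕ) (hn : 0 < n) (hm : m ∣ n) :
    ∑ d ∈ n.divisors.filter (fun d => m ∣ d), ArithmeticFunction.moebius (n / d)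
      = if m = n then 1 else 0 := by
  have hm0 : 0 < m := Nat.pos_of_dvd_of_pos hm hn
  have h1 : ∑ d ∈ n.divisors.filter (fun d => m ∣ d), ArithmeticFunction.moebius (n / d)
      = ∑ e ∈ (n / m).divisors, ArithmeticFunction.moebius e := by
    refine Finset.sum_nbij' (fun d => n / d) (fun e => n / e) ?_ ?_ ?_ ?_ ?_
    · intro d hd
      rw [Finset.mem_filter, Nat.mem_divisors] at hd
      obtain ⟨⟨⟨l, hl⟩, _⟩, ⟨k, rfl⟩⟩ := hd
      have hk : 0 < m * k := by
        rcases Nat.eq_zero_or_pos (m * k) with h | h
        · rw [h] at hl; omega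
        · exact h
      rw [Nat.mem_divisors]
      have e1 : n / (m * k) = l := by rw [hl]; exact Nat.mul_div_cancel_left l hk
      have e2 : n / m = k * l := by rw [hl, mul_assoc]; exact Nat.mul_div_cancel_left _ hm0
      rw [e1, e2]
      refine ⟨dvd_mul_left _ _, ?_⟩
      rw [← e2]
      exact (Nat.div_pos (Nat.le_of_dvd hn hm) hm0).ne'
    · intro e he
      rw [Nat.mem_divisors] at he
      obtain ⟨⟨l, hl⟩, _⟩ := he
      obtain ⟨c, hc⟩ := hm
      have hc2 : n / m = c := by rw [hc]; exact Nat.mul_div_cancel_left _ hm0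
      rw [hc2] at hl
      have he0 : 0 < e := by
        rcases Nat.eq_zero_or_pos e with h | h
        · rw [h, zero_mul] at hl; rw [hl, mul_zero] at hc; omega
        · exact h
      have e1 : n / e = m * l := by
        rw [hc, hl, show m * (e * l) = e * (m * l) by ring]
        exact Nat.mul_div_cancel_left _ he0
      rw [Finset.mem_filter, Nat.mem_divisors, e1]
      refine ⟨⟨⟨e, ?_⟩, hn.ne'⟩, dvd_mul_right _ _⟩
      rw [hc, hl]; ring
    · intro d hd
      rw [Finset.mem_filter, Nat.mem_divisors] at hd
      exact Nat.div_div_self hd.1.1 hn.ne'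
    · intro e he
      rw [Nat.mem_divisors] at he
      exact Nat.div_div_self (he.1.trans (Nat.div_dvd_of_dvd hm)) hn.ne'
    · intro d _; rfl
  rw [h1, ← ArithmeticFunction.coe_mul_zeta_apply, ArithmeticFunction.moebius_mul_coe_zeta,
    ArithmeticFunction.one_apply]
  have h2 : n / m = 1 ↔ m = n := by
    constructor
    · intro h
      have := Nat.div_mul_cancel hm
      rw [h, one_mul] at this
      exact this
    · intro h
      rw [h]; exact Nat.div_self hn
  simp only [h2]

/-- Counting divisors by the sign of the Möbius function. -/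
theorem card_pos_neg (n m : ℕ) (hn : 0 < n) (hm : m ∣ n) :
    ((n.divisors.filter (fun d => ArithmeticFunction.moebius (n / d) = 1)).filter
        (fun d => m ∣ d)).card
      = ((n.divisors.filter (fun d => ArithmeticFunction.moebius (n / d) = -1)).filter
        (fun d => m ∣ d)).card + if m = n then 1 else 0 := by
  have h := sum_moebius_mul n m hn hm
  have h1 : ∀ d, (ArithmeticFunction.moebius (n / d) : ℤ)
      = (if ArithmeticFunction.moebius (n / d) = 1 then 1 else 0)
        - (if ArithmeticFunction.moebius (n / d) = -1 then 1 else 0) := by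
    intro d
    rcases ArithmeticFunction.moebius_eq_or (n / d) with h | h | h <;> rw [h] <;> norm_num
  rw [Finset.sum_congr rfl (fun d _ => h1 d), Finset.sum_sub_distrib, Finset.sum_boole,
    Finset.sum_boole, Finset.filter_filter, Finset.filter_filter] at h
  rw [Finset.filter_filter, Finset.filter_filter]
  have e1 : (n.divisors.filter (fun d => ArithmeticFunction.moebius (n / d) = 1 ∧ m ∣ d))
      = n.divisors.filter (fun d => m ∣ d ∧ ArithmeticFunction.moebius (n / d) = 1) := by
    ext d; simp only [Finset.mem_filter]; tauto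
  have e2 : (n.divisors.filter (fun d => ArithmeticFunction.moebius (n / d) = -1 ∧ m ∣ d))
      = n.divisors.filter (fun d => m ∣ d ∧ ArithmeticFunction.moebius (n / d) = -1) := by
    ext d; simp only [Finset.mem_filter]; tauto
  rw [e1, e2]
  split_ifs at h ⊢ <;> omega

variable {K : Type*} [Field K]

/-- The minimal period of the sequence coded by `T`. -/
noncomputable def mp (n : ℕ) (T : Finset ℕ) : ℕ := Function.minimalPeriod sh (pt 0 n T)

theorem mp_dvd_iff (n d : ℕ) (T : Finset ℕ) :
    mp n T ∣ d ↔ ∀ i, pt 0 n T (i + d) = pt 0 n T i := by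
  rw [mp, ← Function.isPeriodicPt_iff_minimalPeriod_dvd]
  constructor
  · intro h i
    have h1 : sh^[d] (pt 0 n T) = pt 0 n T := h
    have h2 := congrFun h1 i
    rw [sh_iterate] at h2
    rw [add_comm]; exact h2
  · intro h
    change sh^[d] (pt 0 n T) = pt 0 n T
    funext i
    rw [sh_iterate, add_comm]; exact h i

theorem mp_dvd (n : ℕ) (T : Finset ℕ) : mp n T ∣ n := (mp_dvd_iff n n T).2 (pt_periodic n T)

theorem exact_iff (n : ℕ) (hn : 0 < n) (T : Finset ℕ) : Exact n T ↔ mp n T = n := by
  constructor
  · intro h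
    by_contra hne
    have hlt : mp n T < n := lt_of_le_of_ne (Nat.le_of_dvd hn (mp_dvd n T)) hne
    exact h _ (mp_dvd n T) hlt ((mp_dvd_iff n _ T).1 dvd_rfl)
  · intro h d hd hdn hper
    have h1 := (mp_dvd_iff n d T).2 hper
    rw [h] at h1
    have := Nat.le_of_dvd (Nat.pos_of_dvd_of_pos hd hn) h1
    omega

/-- The linear factor attached to a sequence. -/
noncomputable def lin (K : Type*) [Field K] (n : ℕ) (T : Finset ℕ) : (LaurentSeries K)[X] :=
  X - C (X0 (pt 0 n T))

/-- The factorisation of `f_z^d(x) - x` at infinity for `d ∣ n`. -/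
theorem map_it_sub_X (h2 : (2 : K) ≠ 0) (n d : ℕ) (hn : 0 < n) (hd : d ∣ n) :
    (it K d - X).map (ev K) = ∏ T ∈ (range n).powerset.filter (fun T => mp n T ∣ d), lin K n T := by
  classical
  have hd0 : 0 < d := Nat.pos_of_dvd_of_pos hd hn
  have h := map_it_sub h2 0 d hd0
  rw [zero_add] at h
  have h0 : it K 0 = X := rfl
  rw [h0] at h
  rw [h]
  have hpt : ∀ S, pt 0 n ((range n).filter (fun i => i % d ∈ S)) = pt 0 d S := by
    intro S
    funext i
    simp only [pt, idx, Nat.not_lt_zero, if_false, Nat.sub_zero, zero_add, Finset.mem_filter,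
      Finset.mem_range, Nat.mod_lt i hn, true_and, Nat.mod_mod_of_dvd i hd]
  refine Finset.prod_nbij (fun S => (range n).filter (fun i => i % d ∈ S)) ?_ ?_ ?_ ?_
  · intro S _
    rw [Finset.mem_filter, Finset.mem_powerset]
    refine ⟨Finset.filter_subset _ _, ?_⟩
    rw [mp_dvd_iff, hpt]
    exact pt_periodic d S
  · intro S hS S' hS' hSS
    rw [Finset.mem_coe, Finset.mem_powerset] at hS hS'
    refine pt_injOn 0 d S S' (by simpa using hS) (by simpa using hS') ?_
    rw [← hpt S, ← hpt S']
    simp only at hSS
    rw [hSS]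
  · intro T hT
    rw [Finset.mem_coe, Finset.mem_filter, Finset.mem_powerset] at hT
    obtain ⟨hTn, hTd⟩ := hT
    have hper := (mp_dvd_iff n d T).1 hTd
    have hmul : ∀ k i, pt 0 n T (i + d * k) = pt 0 n T i := by
      intro k i
      induction k with
      | zero => simp
      | succ k ih => rw [Nat.mul_succ, ← add_assoc, hper, ih]
    refine ⟨(range d).filter (fun i => i ∈ T), ?_, ?_⟩
    · rw [Finset.mem_coe, Finset.mem_powerset]
      exact Finset.filter_subset _ _
    · ext i
      simp only [Finset.mem_filter, Finset.mem_range, Nat.mod_lt i hd0, true_and]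
      constructor
      · rintro ⟨hin, hi⟩
        have h3 := hmul (i / d) (i % d)
        rw [Nat.mod_add_div] at h3
        have h4 : i % d < n := lt_of_lt_of_le (Nat.mod_lt i hd0) (Nat.le_of_dvd hn hd)
        simp only [pt, idx_self 0 n i (by omega), idx_self 0 n (i % d) (by omega)] at h3
        have : decide (i ∈ T) = true := by rw [h3]; simpa using hi
        simpa using this
      · intro hi
        have hin := Finset.mem_range.1 (hTn hi)
        refine ⟨hin, ?_⟩
        have h3 := hmul (i / d) (i % d)
        rw [Nat.mod_add_div] at h3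
        have h4 : i % d < n := lt_of_lt_of_le (Nat.mod_lt i hd0) (Nat.le_of_dvd hn hd)
        simp only [pt, idx_self 0 n i (by omega), idx_self 0 n (i % d) (by omega)] at h3
        have : decide (i % d ∈ T) = true := by rw [← h3]; simpa using hi
        simpa using this
  · intro S _
    rw [lin, hpt]

/-- The itineraries of exact period `n`. -/
noncomputable def Ex (n : ℕ) : Finset (Finset ℕ) :=
  (range n).powerset.filter (fun T => mp n T = n)

/-- The key identity at infinity. -/
theorem num_eq_den (h2 : (2 : K) ≠ 0) (n : ℕ) (hn : 0 < n) :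
    (∏ d ∈ n.divisors.filter (fun d => ArithmeticFunction.moebius (n / d) = 1),
        (it K d - X)).map (ev K)
      = (∏ d ∈ n.divisors.filter (fun d => ArithmeticFunction.moebius (n / d) = -1),
        (it K d - X)).map (ev K) * ∏ T ∈ Ex n, lin K n T := by
  classical
  have key : ∀ D : Finset ℕ, D ⊆ n.divisors → (∏ d ∈ D, (it K d - X)).map (ev K)
      = ∏ T ∈ (range n).powerset, lin K n T ^ (D.filter (fun d => mp n T ∣ d)).card := by
    intro D hD
    rw [Polynomial.map_prod, Finset.prod_congr rfl (fun d hd =>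
      map_it_sub_X h2 n d hn (Nat.dvd_of_mem_divisors (hD hd)))]
    simp only [Finset.prod_filter]
    rw [Finset.prod_comm]
    refine Finset.prod_congr rfl (fun T _ => ?_)
    rw [← Finset.prod_filter, Finset.prod_const]
  rw [key _ (Finset.filter_subset _ _), key _ (Finset.filter_subset _ _), Ex, Finset.prod_filter,
    ← Finset.prod_mul_distrib]
  refine Finset.prod_congr rfl (fun T _ => ?_)
  rw [card_pos_neg n (mp n T) hn (mp_dvd n T), pow_add]
  congr 1
  split_ifs <;> simp

theorem ev_coeff_neg (c : K[X]) (n : ℕ) :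
    (ev K c).coeff (-(2 * n : ℤ)) = (-1) ^ n * c.coeff n := by
  induction c using Polynomial.induction_on' with
  | add p q hp hq => rw [map_add, HahnSeries.coeff_add, hp, hq, coeff_add, mul_add]
  | monomial k a =>
    have h1 : ev K (monomial k a) = HahnSeries.single (-(2 * k : ℤ)) (a * (-1) ^ k) := by
      rw [ev, coe_eval₂RingHom, eval₂_monomial, zL_pow, HahnSeries.C_mul_eq_smul]
      ext k
      rw [HahnSeries.coeff_smul, HahnSeries.coeff_single, HahnSeries.coeff_single]
      split_ifs <;> simp
    rw [h1, HahnSeries.coeff_single, coeff_monomial]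
    by_cases h : k = n
    · subst h; simp [mul_comm]
    · rw [if_neg (by omega), if_neg h, mul_zero]

theorem ev_injective : Function.Injective (ev K) := by
  intro p q h
  ext n
  have h1 := congrArg (fun x => HahnSeries.coeff x (-(2 * n : ℤ))) h
  simp only [ev_coeff_neg] at h1
  exact mul_left_cancel₀ (pow_ne_zero n (by norm_num)) h1

/-- The change of coefficients `ℤ[z][x] → K[z][x]`. -/
noncomputable def toK (K : Type*) [Field K] : ℤ[X] →+* K[X] := mapRingHom (Int.castRingHom K)

theorem map_it (d : ℕ) : (it ℤ d).map (toK K) = it K d := by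
  induction d with
  | zero => simp [it]
  | succ d ih => rw [it, Polynomial.map_add, Polynomial.map_pow, ih, map_C, it]; simp [toK]

theorem it_sub_X_monic (R : Type*) [CommRing R] [Nontrivial R] (d : ℕ) (hd : 0 < d) :
    (it R d - X).Monic := by
  have := (it_sub_monic R 0 d hd).1
  rwa [zero_add] at this

theorem dynDen_monic (n : ℕ) : (dynDen n).Monic :=
  monic_prod_of_monic _ _ (fun d hd => it_sub_X_monic ℤ d
    (Nat.pos_of_mem_divisors (Finset.mem_filter.1 hd).1))

theorem dynNum_monic (n : ℕ) : (dynNum n).Monic :=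
  monic_prod_of_monic _ _ (fun d hd => it_sub_X_monic ℤ d
    (Nat.pos_of_mem_divisors (Finset.mem_filter.1 hd).1))

theorem map_dynNum (n : ℕ) : (dynNum n).map (toK K)
    = ∏ d ∈ n.divisors.filter (fun d => ArithmeticFunction.moebius (n / d) = 1),
        (it K d - X) := by
  rw [dynNum, Polynomial.map_prod]
  exact Finset.prod_congr rfl (fun d _ => by rw [Polynomial.map_sub, map_it, map_X])

theorem map_dynDen (n : ℕ) : (dynDen n).map (toK K)
    = ∏ d ∈ n.divisors.filter (fun d => ArithmeticFunction.moebius (n / d) = -1),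
        (it K d - X) := by
  rw [dynDen, Polynomial.map_prod]
  exact Finset.prod_congr rfl (fun d _ => by rw [Polynomial.map_sub, map_it, map_X])

/-- The division defining the dynatomic polynomial is exact. -/
theorem dynDen_mul_dynatomic (n : ℕ) (hn : 0 < n) : dynDen n * dynatomic n = dynNum n := by
  have hmod : dynNum n %ₘ dynDen n = 0 := by
    have hinj : Function.Injective ((ev ℚ).comp (toK ℚ)) := by
      have h1 : Function.Injective (toK ℚ) :=
        Polynomial.map_injective _ (RingHom.injective_int (Int.castRingHom ℚ))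
      exact ev_injective.comp h1
    apply Polynomial.map_injective _ hinj
    rw [map_modByMonic _ (dynDen_monic n), Polynomial.map_zero,
      modByMonic_eq_zero_iff_dvd ((dynDen_monic n).map _)]
    rw [← Polynomial.map_map, ← Polynomial.map_map, map_dynNum, map_dynDen]
    exact ⟨_, num_eq_den (by norm_num) n hn⟩
  have h := modByMonic_add_div (dynNum n) (dynDen n)
  rw [hmod, zero_add] at h
  exact h

theorem dynatomic_monic (n : ℕ) (hn : 0 < n) : (dynatomic n).Monic :=
  (dynDen_monic n).of_mul_monic_left (by rw [dynDen_mul_dynatomic n hn]; exact dynNum_monic n)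

/-- The factorisation of the dynatomic polynomial at infinity. -/
theorem map_dynatomic (h2 : (2 : K) ≠ 0) (n : ℕ) (hn : 0 < n) :
    ((dynatomic n).map (toK K)).map (ev K) = ∏ T ∈ Ex n, lin K n T := by
  have h1 := num_eq_den h2 n hn
  rw [← map_dynNum, ← map_dynDen, ← dynDen_mul_dynatomic n hn, Polynomial.map_mul,
    Polynomial.map_mul] at h1
  have h3 : (((dynDen n).map (toK K)).map (ev K)) ≠ 0 :=
    (((dynDen_monic n).map _).map _).ne_zero
  exact mul_left_cancel₀ h3 h1

theorem card_le_natDegree_of_roots {L ι : Type*} [Field L] (P : L[X]) (hP : P.Monic)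
    (s : Finset ι) (r : ι → L) (hr : ∀ i ∈ s, ∀ j ∈ s, r i = r j → i = j)
    (h0 : ∀ i ∈ s, P.eval (r i) = 0) : s.card ≤ P.natDegree := by
  classical
  have hdvd : ∏ i ∈ s, (X - C (r i)) ∣ P := by
    refine Finset.prod_dvd_of_coprime ?_ ?_
    · intro i hi j hj hij
      refine isCoprime_X_sub_C_of_isUnit_sub (sub_ne_zero_of_ne ?_).isUnit
      exact fun h => hij (hr i hi j hj h)
    · intro i hi
      exact dvd_iff_isRoot.2 (h0 i hi)
  have hdeg : (∏ i ∈ s, (X - C (r i))).natDegree = s.card := by
    rw [natDegree_prod_of_monic _ _ (fun i _ => monic_X_sub_C _)]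
    simp
  rw [← hdeg]
  exact natDegree_le_of_dvd hdvd hP.ne_zero

theorem Ex_nonempty (n : ℕ) (hn : 0 < n) : (Ex n).Nonempty := by
  refine ⟨{0}, ?_⟩
  rw [Ex, Finset.mem_filter, Finset.mem_powerset]
  refine ⟨by simpa using hn, ?_⟩
  by_contra hne
  have hlt : mp n {0} < n := lt_of_le_of_ne (Nat.le_of_dvd hn (mp_dvd n {0})) hne
  have h1 := (mp_dvd_iff n _ {0}).1 (dvd_refl (mp n {0})) 0
  have hpos : 0 < mp n {0} := Nat.pos_of_dvd_of_pos (mp_dvd n {0}) hn
  simp only [pt, zero_add, idx_self 0 n 0 (by omega), idx_self 0 n (mp n {0}) (by omega)] at h1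
  simp at h1
  omega

/-- **Irreducibility.** -/
theorem irreducible_dynatomic (h2 : (2 : K) ≠ 0) (n : ℕ) (hn : 0 < n)
    (hinv : ∀ m : ℕ, 0 < m → m + 7 ≤ 2 ^ n → (m : K) ≠ 0) :
    Irreducible ((dynatomic n).map (toK K)) := by
  classical
  set Φ : K[X][X] := (dynatomic n).map (toK K) with hΦ
  have hmon : Φ.Monic := (dynatomic_monic n hn).map _
  have hL : Φ.map (ev K) = ∏ T ∈ Ex n, lin K n T := map_dynatomic h2 n hn
  have hinj : ∀ T ∈ Ex n, ∀ T' ∈ Ex n, (X0 (pt 0 n T) : LaurentSeries K) = X0 (pt 0 n T') →
      T = T' := by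
    intro T hT T' hT' h
    rw [Ex, Finset.mem_filter, Finset.mem_powerset] at hT hT'
    exact pt_injOn 0 n T T' (by simpa using hT.1) (by simpa using hT'.1) (X0_injective h2 _ _ h)
  have hdegΦ : Φ.natDegree = (Ex n).card := by
    rw [← hmon.natDegree_map (ev K), hL, natDegree_prod_of_monic _ _ (fun T _ => monic_X_sub_C _)]
    simp [lin]
  have hpos : 0 < (Ex n).card := Finset.card_pos.2 (Ex_nonempty n hn)
  -- monic factors
  have main : ∀ F G : K[X][X], F.Monic → G.Monic → F * G = Φ → F = 1 ∨ G = 1 := by
    intro F G hF hG hFG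
    have hFL := hF.map (ev K)
    have hGL := hG.map (ev K)
    have hprod : F.map (ev K) * G.map (ev K) = ∏ T ∈ Ex n, lin K n T := by
      rw [← Polynomial.map_mul, hFG, hL]
    have hdeg : F.natDegree + G.natDegree = (Ex n).card := by
      rw [← hdegΦ, ← hFG, hF.natDegree_mul hG]
    set A := (Ex n).filter (fun T => (F.map (ev K)).eval (X0 (pt 0 n T)) = 0) with hA
    set B := (Ex n).filter (fun T => (G.map (ev K)).eval (X0 (pt 0 n T)) = 0) with hB
    have hAc : A.card ≤ F.natDegree := by
      rw [← hF.natDegree_map (ev K)]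
      refine card_le_natDegree_of_roots _ hFL A (fun T => X0 (pt 0 n T)) ?_ ?_
      · intro T hT T' hT' h
        exact hinj T (Finset.mem_filter.1 hT).1 T' (Finset.mem_filter.1 hT').1 h
      · intro T hT
        exact (Finset.mem_filter.1 hT).2
    have hBc : B.card ≤ G.natDegree := by
      rw [← hG.natDegree_map (ev K)]
      refine card_le_natDegree_of_roots _ hGL B (fun T => X0 (pt 0 n T)) ?_ ?_
      · intro T hT T' hT' h
        exact hinj T (Finset.mem_filter.1 hT).1 T' (Finset.mem_filter.1 hT').1 h
      · intro T hT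
        exact (Finset.mem_filter.1 hT).2
    have hAB : (Ex n) ⊆ A ∪ B := by
      intro T hT
      have h0 : (F.map (ev K) * G.map (ev K)).eval (X0 (pt 0 n T)) = 0 := by
        rw [hprod, eval_prod]
        exact Finset.prod_eq_zero hT (by simp [lin])
      rw [eval_mul, mul_eq_zero] at h0
      rw [Finset.mem_union]
      rcases h0 with h0 | h0
      · exact Or.inl (Finset.mem_filter.2 ⟨hT, h0⟩)
      · exact Or.inr (Finset.mem_filter.2 ⟨hT, h0⟩)
    have hABc : (Ex n).card ≤ A.card + B.card :=
      (Finset.card_le_card hAB).trans (Finset.card_union_le _ _)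
    have hAe : F.natDegree = A.card := by omega
    have hBe : G.natDegree = B.card := by omega
    have hFA : F.map (ev K) = ∏ T ∈ A, (X - C (X0 (pt 0 n T))) := by
      refine eq_prod_of_roots _ hFL A _ ?_ ?_ ?_
      · intro T hT T' hT' h
        exact hinj T (Finset.mem_filter.1 hT).1 T' (Finset.mem_filter.1 hT').1 h
      · intro T hT
        exact (Finset.mem_filter.1 hT).2
      · rw [hF.natDegree_map, hAe]
    have hSol := sumW_mem_Sol (K := K) A (pt 0 n) F hF hFA
    have hAsub : A ⊆ (range n).powerset := fun T hT =>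
      (Finset.mem_filter.1 (Finset.mem_filter.1 hT).1).1
    obtain ⟨κ, hκ⟩ := all_or_none h2 n hn hinv A hAsub hSol
    have hall : ∀ T ∈ Ex n, (if T ∈ A then (1 : K) else 0) = κ := by
      intro T hT
      rw [Ex, Finset.mem_filter, Finset.mem_powerset] at hT
      exact hκ T hT.1 ((exact_iff n hn T).2 hT.2)
    rcases Finset.eq_empty_or_nonempty A with hAempty | ⟨T0, hT0⟩
    · left
      rw [hAempty, Finset.card_empty] at hAe
      exact Polynomial.eq_one_of_monic_natDegree_zero hF hAe
    · right
      have hκ1 : κ = 1 := by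
        rw [← hall T0 (Finset.mem_filter.1 hT0).1, if_pos hT0]
      have hEA : Ex n ⊆ A := by
        intro T hT
        by_contra hTA
        have := hall T hT
        rw [if_neg hTA, hκ1] at this
        exact zero_ne_one this
      have h3 := Finset.card_le_card hEA
      have h4 : G.natDegree = 0 := by omega
      exact Polynomial.eq_one_of_monic_natDegree_zero hG h4
  constructor
  · intro hu
    have := hmon.eq_one_of_isUnit hu
    rw [this, natDegree_one] at hdegΦ
    omega
  · intro a b hab
    have hlc : a.leadingCoeff * b.leadingCoeff = 1 := by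
      rw [← leadingCoeff_mul, ← hab]; exact hmon
    have hF : (C b.leadingCoeff * a).Monic := by
      rw [Monic, leadingCoeff_mul, leadingCoeff_C, mul_comm]; exact hlc
    have hG : (C a.leadingCoeff * b).Monic := by
      rw [Monic, leadingCoeff_mul, leadingCoeff_C]; exact hlc
    have hC : (C b.leadingCoeff : K[X][X]) * C a.leadingCoeff = 1 := by
      rw [← C_mul, mul_comm, hlc, C_1]
    have hFG : (C b.leadingCoeff * a) * (C a.leadingCoeff * b) = Φ := by
      rw [hab]
      linear_combination (a * b) * hC
    rcases main _ _ hF hG hFG with h | h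
    · left; exact IsUnit.of_mul_eq_one_right _ h
    · right; exact IsUnit.of_mul_eq_one_right _ h

end Pool.Agent.J6H89.Dyn
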