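import Pool.Agent.J6H89.Dyn.Rel

/-!
# The functionals attached to the curves `x_j = x_{j+m}`
-/

namespace Pool.Agent.J6H89.Dyn

open Finset Polynomial

variable {K : Type*} [Field K]

/-- Index of the coordinate governing position `i` of a sequence of preperiod `j`, period `m`. -/
def idx (j m i : ℕ) : ℕ := if i < j then i else j + (i - j) % m

/-- The eventually periodic sequence coded by a finite set. -/
def pt (j m : ℕ) (S : Finset ℕ) : ℕ → Bool := fun i => decide (idx j m i ∈ S)

theorem idx_lt (j m i : ℕ) (hm : 0 < m) : idx j m i < j + m := by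
  unfold idx
  split_ifs with h
  · omega
  · have := Nat.mod_lt (i - j) hm
    omega

theorem idx_self (j m r : ℕ) (hr : r < j + m) : idx j m r = r := by
  unfold idx
  split_ifs with h
  · rfl
  · rw [Nat.mod_eq_of_lt (by omega)]; omega

theorem pt_injOn (j m : ℕ) (S S' : Finset ℕ) (hS : S ⊆ range (j + m)) (hS' : S' ⊆ range (j + m))
    (h : pt j m S = pt j m S') : S = S' := by
  ext r
  by_cases hr : r < j + m
  · have h1 := congrFun h r
    simp only [pt, idx_self j m r hr] at h1
    simpa using h1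
  · constructor
    · intro h1; exact absurd (Finset.mem_range.1 (hS h1)) hr
    · intro h1; exact absurd (Finset.mem_range.1 (hS' h1)) hr

theorem idx_add (j m i : ℕ) : idx j m (j + m + i) = idx j m (j + i) := by
  unfold idx
  rw [if_neg (by omega), if_neg (by omega)]
  have h1 : j + m + i - j = m + i := by omega
  have h2 : j + i - j = i := by omega
  rw [h1, h2, Nat.add_mod_left]

theorem sh_pt (j m : ℕ) (S : Finset ℕ) : sh^[j + m] (pt j m S) = sh^[j] (pt j m S) := by
  funext i
  rw [sh_iterate, sh_iterate]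
  simp only [pt, idx_add]

theorem map_it_sub (h2 : (2 : K) ≠ 0) (j m : ℕ) (hm : 0 < m) :
    (it K (j + m) - it K j).map (ev K)
      = ∏ S ∈ (range (j + m)).powerset, (X - C (X0 (pt j m S))) := by
  obtain ⟨h3, h4⟩ := it_sub_monic K[X] j m hm
  obtain ⟨h5, h6⟩ := it_sub_monic K j m hm
  refine eq_prod_of_roots _ (h5.map _) _ _ ?_ ?_ ?_
  · intro S hS S' hS' h
    rw [Finset.mem_powerset] at hS hS'
    exact pt_injOn j m S S' hS hS' (X0_injective h2 _ _ h)
  · intro S _
    rw [eval_map, eval₂_sub, eval_it h2, eval_it h2, sh_pt, sub_self]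
  · rw [h5.natDegree_map, h6, Finset.card_powerset, Finset.card_range]

/-- The normalised functional of the curve `x_j = x_{j+m}`. -/
noncomputable def nu (j m : ℕ) : ((ℕ → Bool) → K) →ₗ[K] K :=
  ((1 / 2 : K) ^ (j + m)) • sumW (range (j + m)).powerset (pt j m)

theorem nu_apply (j m : ℕ) (φ : (ℕ → Bool) → K) :
    nu j m φ = (1 / 2 : K) ^ (j + m) * ∑ S ∈ (range (j + m)).powerset, φ (pt j m S) := by
  rw [nu, LinearMap.smul_apply, sumW_apply, smul_eq_mul]

theorem nu_mem_Sol (h2 : (2 : K) ≠ 0) (j m : ℕ) (hm : 0 < m) :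
    (nu j m : _ →ₗ[K] K) ∈ Sol K :=
  Submodule.smul_mem _ _ (sumW_mem_Sol _ _ _ (it_sub_monic K j m hm).1 (map_it_sub h2 j m hm))

theorem nu_const (h2 : (2 : K) ≠ 0) (j m : ℕ) (φ : (ℕ → Bool) → K)
    (h : ∀ S ⊆ range (j + m), φ (pt j m S) = 1) : nu j m φ = 1 := by
  rw [nu_apply, Finset.sum_congr rfl (fun S hS => h S (Finset.mem_powerset.1 hS))]
  simp only [Finset.sum_const, Finset.card_powerset, Finset.card_range, nsmul_eq_mul, mul_one]
  push_cast
  rw [← mul_pow, one_div, inv_mul_cancel₀ h2, one_pow]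

/-- Flipping one coordinate. -/
theorem nu_flip (h2 : (2 : K) ≠ 0) (j m r : ℕ) (hr : r < j + m) (φ : (ℕ → Bool) → K)
    (h : ∀ S ⊆ range (j + m), φ (pt j m (symmDiff S {r})) = - φ (pt j m S)) :
    nu j m φ = 0 := by
  rw [nu_apply]
  have h1 : ∑ S ∈ (range (j + m)).powerset, φ (pt j m S)
      = ∑ S ∈ (range (j + m)).powerset, φ (pt j m (symmDiff S {r})) := by
    refine Finset.sum_nbij' (fun S => symmDiff S {r}) (fun S => symmDiff S {r}) ?_ ?_ ?_ ?_ ?_
    · intro S hS
      rw [Finset.mem_powerset] at hS ⊢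
      intro i hi
      rw [Finset.mem_symmDiff, Finset.mem_singleton] at hi
      rcases hi with ⟨hi, _⟩ | ⟨hi, _⟩
      · exact hS hi
      · rw [hi]; exact Finset.mem_range.2 hr
    · intro S hS
      rw [Finset.mem_powerset] at hS ⊢
      intro i hi
      rw [Finset.mem_symmDiff, Finset.mem_singleton] at hi
      rcases hi with ⟨hi, _⟩ | ⟨hi, _⟩
      · exact hS hi
      · rw [hi]; exact Finset.mem_range.2 hr
    · intro S _
      exact symmDiff_symmDiff_cancel_right _ _
    · intro S _
      exact symmDiff_symmDiff_cancel_right _ _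
    · intro S _
      rw [symmDiff_symmDiff_cancel_right]
  have h3 : ∑ S ∈ (range (j + m)).powerset, φ (pt j m (symmDiff S {r}))
      = - ∑ S ∈ (range (j + m)).powerset, φ (pt j m S) := by
    rw [← Finset.sum_neg_distrib]
    exact Finset.sum_congr rfl (fun S hS => h S (Finset.mem_powerset.1 hS))
  rw [h3] at h1
  have h4 : (2 : K) * ∑ S ∈ (range (j + m)).powerset, φ (pt j m S) = 0 := by
    linear_combination h1
  rw [(mul_eq_zero.1 h4).resolve_left h2, mul_zero]

theorem sg_flip (j m r i : ℕ) (S : Finset ℕ) :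
    sg K (pt j m (symmDiff S {r}) i)
      = (if idx j m i = r then -1 else 1) * sg K (pt j m S i) := by
  unfold pt
  by_cases h : idx j m i = r
  · rw [if_pos h, h]
    by_cases hr : r ∈ S
    · have : r ∉ symmDiff S {r} := by
        rw [Finset.mem_symmDiff]; simp [hr]
      simp [sg, hr, this]
    · have : r ∈ symmDiff S {r} := by
        rw [Finset.mem_symmDiff]; simp [hr]
      simp [sg, hr, this]
  · rw [if_neg h, one_mul]
    have : (idx j m i ∈ symmDiff S {r}) ↔ idx j m i ∈ S := by
      rw [Finset.mem_symmDiff]; simp [h]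
    simp [this]

theorem chi_pair (a b : ℕ) (hab : a ≠ b) (ε : ℕ → Bool) :
    (chi {a, b} ε : K) = sg K (ε a) * sg K (ε b) := by
  simp [chi, Finset.prod_pair hab]

theorem nu_empty (h2 : (2 : K) ≠ 0) (j m : ℕ) : nu j m (chi ∅ : (ℕ → Bool) → K) = 1 :=
  nu_const h2 j m _ (fun S _ => by simp [chi])

theorem nu_two (h2 : (2 : K) ≠ 0) (j m a b : ℕ) (hm : 0 < m) :
    nu j m (fun ε => sg K (ε a) * sg K (ε b)) = if idx j m a = idx j m b then 1 else 0 := by
  by_cases h : idx j m a = idx j m b
  · rw [if_pos h]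
    refine nu_const h2 j m _ (fun S _ => ?_)
    have : pt j m S a = pt j m S b := by simp [pt, h]
    rw [this, sg_mul_self]
  · rw [if_neg h]
    refine nu_flip h2 j m (idx j m a) (idx_lt j m a hm) _ (fun S _ => ?_)
    rw [sg_flip, sg_flip, if_pos rfl, if_neg (fun h' => h h'.symm)]
    ring

theorem idx_eq_iff (j m a b : ℕ) (hab : a < b) :
    idx j m a = idx j m b ↔ j ≤ a ∧ m ∣ b - a := by
  unfold idx
  by_cases ha : a < j
  · rw [if_pos ha]
    constructor
    · intro h
      exfalso
      split_ifs at h <;> omega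
    · rintro ⟨h, _⟩; omega
  · rw [if_neg ha, if_neg (by omega)]
    constructor
    · intro h
      refine ⟨by omega, ?_⟩
      have h1 : (a - j) % m = (b - j) % m := by omega
      have h2 : b - a = (b - j) - (a - j) := by omega
      rw [h2]
      exact (Nat.modEq_iff_dvd' (by omega)).1 h1
    · rintro ⟨_, h⟩
      have h2 : b - a = (b - j) - (a - j) := by omega
      rw [h2] at h
      have h1 : (a - j) % m = (b - j) % m := (Nat.modEq_iff_dvd' (by omega)).2 h
      rw [h1]

theorem nu_pair (h2 : (2 : K) ≠ 0) (j m a b : ℕ) (hm : 0 < m) (hab : a < b) :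
    nu j m (chi {a, b} : (ℕ → Bool) → K) = if j ≤ a ∧ m ∣ b - a then 1 else 0 := by
  have : (chi {a, b} : (ℕ → Bool) → K) = fun ε => sg K (ε a) * sg K (ε b) := by
    funext ε; exact chi_pair a b hab.ne ε
  rw [this, nu_two h2 j m a b hm]
  simp only [idx_eq_iff j m a b hab]

end Pool.Agent.J6H89.Dyn
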