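import Pool.Agent.J6H89.Dyn.Rho

/-!
# Pair correlations of a periodic functional
-/

namespace Pool.Agent.J6H89.Dyn

open Finset Polynomial

variable {K : Type*} [Field K]

/-- The functional only sees sequences of period `n`. -/
def Per (n : ℕ) (W : ((ℕ → Bool) → K) →ₗ[K] K) : Prop :=
  ∀ φ ψ : (ℕ → Bool) → K, (∀ ε, (∀ i, ε (i + n) = ε i) → φ ε = ψ ε) → W φ = W ψ

/-- Precomposition with the shift. -/
noncomputable def shW (a : ℕ) (W : ((ℕ → Bool) → K) →ₗ[K] K) : ((ℕ → Bool) → K) →ₗ[K] K :=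
  W ∘ₗ (LinearMap.funLeft K K (fun ε => sh^[a] ε))

theorem shW_apply (a : ℕ) (W : ((ℕ → Bool) → K) →ₗ[K] K) (φ : (ℕ → Bool) → K) :
    shW a W φ = W (fun ε => φ (sh^[a] ε)) := rfl

theorem shW_mem_Sol (h2 : (2 : K) ≠ 0) (a : ℕ) {W : ((ℕ → Bool) → K) →ₗ[K] K} (hW : W ∈ Sol K) :
    shW a W ∈ Sol K := by
  intro G m hm
  rw [shW_apply]
  have h := hW (G.comp (it K a)) m hm
  have e : (fun ε => ((G.comp (it K a)).eval₂ (ev K) (X0 ε)).coeff m)
      = (fun ε => (G.eval₂ (ev K) (X0 (sh^[a] ε))).coeff m) := by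
    funext ε
    rw [eval₂_comp, eval_it h2]
  rwa [e] at h

/-- The pair correlation. -/
noncomputable def P (W : ((ℕ → Bool) → K) →ₗ[K] K) (a d : ℕ) : K :=
  W (fun ε => sg K (ε a) * sg K (ε (a + d)))

theorem P_add_n {n : ℕ} {W : ((ℕ → Bool) → K) →ₗ[K] K} (hper : Per n W) (a d : ℕ) :
    P W (a + n) d = P W a d := by
  refine hper _ _ (fun ε h => ?_)
  rw [h a, show a + n + d = (a + d) + n by ring, h (a + d)]

theorem P_symm {n : ℕ} {W : ((ℕ → Bool) → K) →ₗ[K] K} (hper : Per n W) (a d : ℕ) (hd : d ≤ n) :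
    P W a d = P W (a + d) (n - d) := by
  refine hper _ _ (fun ε h => ?_)
  rw [show a + d + (n - d) = a + n by omega, h a, mul_comm]

theorem idx_ne_zero (j m i : ℕ) (hj : 0 < j) (hi : 0 < i) : idx j m i ≠ 0 := by
  unfold idx
  split_ifs <;> omega

theorem idx_zero_of_pos (j m : ℕ) (hj : 0 < j) : idx j m 0 = 0 := by
  simp [idx, hj]

theorem star (h2 : (2 : K) ≠ 0) (n : ℕ) (hinv : ∀ m : ℕ, 0 < m → m + 7 ≤ 2 ^ n → (m : K) ≠ 0)
    {W : ((ℕ → Bool) → K) →ₗ[K] K} (hW : W ∈ Sol K) (hper : Per n W) (a d : ℕ) (hd : 1 ≤ d)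
    (hdn : d + 2 ≤ n) :
    P W (a + 1) d = P W a (Nat.gcd n d) + P W a (Nat.gcd (n - 1) (d + 1)) - P W a 1 := by
  set g1 := Nat.gcd n d with hg1
  set g2 := Nat.gcd (n - 1) (d + 1) with hg2
  have hg1pos : 0 < g1 := Nat.gcd_pos_of_pos_right _ (by omega)
  have hg2pos : 0 < g2 := Nat.gcd_pos_of_pos_right _ (by omega)
  have hg1le : g1 ≤ d := Nat.gcd_le_right _ (by omega)
  have hg2le : g2 ≤ d + 1 := Nat.gcd_le_right _ (by omega)
  set q : (ℕ → Bool) → K :=
    fun ε => sg K (ε 0) * sg K (ε 1) * (sg K (ε (1 + d)) * sg K (ε n)) with hq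
  set pr : ℕ → (ℕ → Bool) → K := fun g ε => sg K (ε 0) * sg K (ε g) with hpr
  set φ : (ℕ → Bool) → K := q - pr g1 - pr g2 + pr 1 with hφ
  have hdep : Dep (n + 1) φ := by
    intro ε ε' h
    simp only [hφ, hq, hpr, Pi.add_apply, Pi.sub_apply]
    rw [h 0 (by omega), h 1 (by omega), h (1 + d) (by omega), h n (by omega), h g1 (by omega),
      h g2 (by omega)]
  have hnu : ∀ j m, 0 < m → nu j m φ = 0 := by
    intro j m hm
    rcases Nat.eq_zero_or_pos j with rfl | hj
    · have hpair : ∀ g, 0 < g → nu 0 m (pr g) = if m ∣ g then (1 : K) else 0 := by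
        intro g hg
        rw [hpr]
        simp only
        rw [nu_two h2 0 m 0 g hm]
        simp only [idx_eq_iff 0 m 0 g hg, le_refl, true_and, Nat.sub_zero]
      rw [hφ, map_add, map_sub, map_sub, hpair g1 hg1pos, hpair g2 hg2pos, hpair 1 one_pos]
      rcases Nat.lt_or_ge 1 m with hm1 | hm1
      · rw [hq, nu_quad h2 m n d hm1 (by omega)]
        have e1 : m ∣ g1 ↔ m ∣ n ∧ m ∣ d := Nat.dvd_gcd_iff
        have e2 : m ∣ g2 ↔ m ∣ n - 1 ∧ m ∣ d + 1 := Nat.dvd_gcd_iff
        have e3 : ¬ (m ∣ 1) := by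
          intro h; have := Nat.le_of_dvd one_pos h; omega
        have e4 : ¬ (m ∣ n ∧ m ∣ n - 1) := by
          rintro ⟨h, h'⟩
          apply e3
          have := Nat.dvd_sub h h'
          rwa [show n - (n - 1) = 1 by omega] at this
        rw [if_neg e3]
        by_cases c1 : m ∣ n ∧ m ∣ d
        · have c2 : ¬ (m ∣ n - 1 ∧ m ∣ d + 1) := fun h => e4 ⟨c1.1, h.1⟩
          rw [if_pos (Or.inl c1), if_pos (e1.2 c1), if_neg (fun h => c2 (e2.1 h))]
          ring
        · by_cases c2 : m ∣ n - 1 ∧ m ∣ d + 1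
          · rw [if_pos (Or.inr c2), if_neg (fun h => c1 (e1.1 h)), if_pos (e2.2 c2)]
            ring
          · rw [if_neg (by tauto), if_neg (fun h => c1 (e1.1 h)), if_neg (fun h => c2 (e2.1 h))]
            ring
      · have hm1' : m = 1 := by omega
        subst hm1'
        have hqc : nu 0 1 q = (1 : K) := by
          refine nu_const h2 0 1 _ (fun S _ => ?_)
          have e : ∀ i, pt 0 1 S i = pt 0 1 S 0 := by
            intro i; simp [pt, idx, Nat.mod_one]
          rw [hq]
          simp only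
          rw [e 1, e (1 + d), e n]
          have h3 := sg_mul_self (K := K) (pt 0 1 S 0)
          rw [h3, one_mul]
        rw [hqc]
        simp
    · refine nu_flip h2 j m 0 (by omega) φ (fun S _ => ?_)
      simp only [hφ, hq, hpr, Pi.add_apply, Pi.sub_apply]
      simp only [sg_flip, idx_zero_of_pos j m hj, if_true, if_neg (idx_ne_zero j m 1 hj one_pos),
        if_neg (idx_ne_zero j m (1 + d) hj (by omega)), if_neg (idx_ne_zero j m n hj (by omega)),
        if_neg (idx_ne_zero j m g1 hj hg1pos), if_neg (idx_ne_zero j m g2 hj hg2pos)]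
      ring
  have hz := rho h2 n hinv (shW_mem_Sol h2 a hW) φ hdep hnu
  rw [hφ, map_add, map_sub, map_sub] at hz
  have hp : ∀ g, shW a W (pr g) = P W a g := by
    intro g
    rw [shW_apply, P]
    congr 1
    funext ε
    simp only [hpr, sh_iterate, add_zero]
  have hqq : shW a W q = P W (a + 1) d := by
    rw [shW_apply, P]
    refine hper _ _ (fun ε h => ?_)
    simp only [hq, sh_iterate, add_zero]
    rw [h a, show a + (1 + d) = a + 1 + d by ring]
    have h3 := sg_mul_self (K := K) (ε a)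
    linear_combination (sg K (ε (a + 1)) * sg K (ε (a + 1 + d))) * h3
  rw [hp, hp, hp, hqq] at hz
  linear_combination hz

/-- The pair correlations only depend on the greatest common divisor of the distance with the
period. -/
theorem P_eq (h2 : (2 : K) ≠ 0) (n : ℕ) (hinv : ∀ m : ℕ, 0 < m → m + 7 ≤ 2 ^ n → (m : K) ≠ 0)
    {W : ((ℕ → Bool) → K) →ₗ[K] K} (hW : W ∈ Sol K) (hper : Per n W) (a d : ℕ) (hd : 1 ≤ d)
    (hdn : d < n) : P W a d = P W 0 (Nat.gcd n d) := by
  rcases Nat.lt_or_ge n 3 with hn | hn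
  · have hn2 : n = 2 := by omega
    have hd1 : d = 1 := by omega
    subst hn2; subst hd1
    have h3 : ∀ a, P W a 1 = P W (a + 1) 1 := fun a => P_symm hper a 1 (by omega)
    have h4 : ∀ a, P W a 1 = P W 0 1 := by
      intro a
      induction a with
      | zero => rfl
      | succ a ih => rw [← h3 a, ih]
    rw [h4 a]
    norm_num
  have st := star h2 n hinv hW hper
  have hsh : ∀ a, P W (a + (n - 1)) 1 = P W a (n - 1) := by
    intro a
    rw [P_symm hper a (n - 1) (by omega), show n - (n - 1) = 1 by omega]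
  -- oddness gives the distance two
  have h2odd : Odd n → ∀ a, P W a 2 = P W a 1 := by
    intro ho b
    have h3 := st (b + 1) (n - 2) (by omega) (by omega)
    have e1 : Nat.gcd n (n - 2) = 1 := by
      rw [Nat.gcd_self_sub_right (by omega)]
      exact (Nat.coprime_two_right.2 ho)
    have e2 : Nat.gcd (n - 1) (n - 2 + 1) = n - 1 := by
      rw [show n - 2 + 1 = n - 1 by omega, Nat.gcd_self]
    rw [e1, e2] at h3
    rw [P_symm hper b 2 (by omega), show b + 2 = b + 1 + 1 by ring, h3, ← hsh,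
      show b + 1 + (n - 1) = b + n by omega, P_add_n hper]
    ring
  have h1 : ∀ a, P W (a + 1) 1 = P W a 1 := by
    intro a
    have h3 := st a 1 le_rfl (by omega)
    rw [Nat.gcd_one_right] at h3
    rcases Nat.even_or_odd n with he | ho
    · have e : Nat.gcd (n - 1) (1 + 1) = 1 := by
        refine Nat.coprime_two_right.2 ?_
        obtain ⟨k, hk⟩ := he
        exact ⟨k - 1, by omega⟩
      rw [e] at h3
      rw [h3]; ring
    · have e : Nat.gcd (n - 1) (1 + 1) = 2 := by
        refine Nat.gcd_eq_right ?_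
        obtain ⟨k, hk⟩ := ho
        exact ⟨k, by omega⟩
      rw [e, h2odd ho a] at h3
      rw [h3]; ring
  have hq : ∀ a, P W a 1 = P W 0 1 := by
    intro a
    induction a with
    | zero => rfl
    | succ a ih => rw [h1 a, ih]
  have hg : ∀ g, g ∣ n - 1 → ∀ a, P W a g = P W 0 1 := by
    intro g
    induction g using Nat.strong_induction_on with
    | _ g ih =>
      intro hgd a
      have hgpos : 0 < g := Nat.pos_of_dvd_of_pos hgd (by omega)
      have hgle : g ≤ n - 1 := Nat.le_of_dvd (by omega) hgd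
      rcases Nat.lt_or_ge g 3 with hg3 | hg3
      · interval_cases g
        · exact hq a
        · have ho : Odd n := by
            obtain ⟨k, hk⟩ := hgd
            exact ⟨k, by omega⟩
          rw [h2odd ho a, hq a]
      · rcases Nat.eq_or_lt_of_le hgle with hge | hgl
        · rw [hge, ← hsh, hq]
        · have h3 := st (a + g - 1) (n - g) (by omega) (by omega)
          have e1 : Nat.gcd n (n - g) = 1 := by
            rw [Nat.gcd_self_sub_right (by omega)]
            have h4 : Nat.gcd n g ∣ 1 := by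
              have h5 : Nat.gcd n g ∣ n := Nat.gcd_dvd_left _ _
              have h6 : Nat.gcd n g ∣ n - 1 := (Nat.gcd_dvd_right _ _).trans hgd
              have := Nat.dvd_sub h5 h6
              rwa [show n - (n - 1) = 1 by omega] at this
            exact Nat.dvd_one.1 h4
          have e2 : n - g + 1 = (n - 1) - (g - 2) := by omega
          have e3 : Nat.gcd (n - 1) (n - g + 1) = Nat.gcd (n - 1) (g - 2) := by
            rw [e2, Nat.gcd_self_sub_right (by omega)]
          have e4 : Nat.gcd (n - 1) (g - 2) < g := by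
            have := Nat.gcd_le_right (m := n - 1) (n := g - 2) (by omega)
            omega
          rw [e1, e3, ih _ e4 (Nat.gcd_dvd_left _ _), hq] at h3
          rw [P_symm hper a g (by omega)]
          rw [show a + g - 1 + 1 = a + g by omega] at h3
          rw [h3]; ring
  have hstar : ∀ a d, 1 ≤ d → d + 2 ≤ n → P W (a + 1) d = P W a (Nat.gcd n d) := by
    intro a d hd hdn
    rw [st a d hd hdn, hg _ (Nat.gcd_dvd_left _ _), hq a]
    ring
  have hinvd : ∀ g, g ∣ n → 1 ≤ g → g + 2 ≤ n → ∀ a, P W a g = P W 0 g := by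
    intro g hgn hg1 hg2 a
    induction a with
    | zero => rfl
    | succ a ih => rw [hstar a g hg1 hg2, Nat.gcd_eq_right hgn, ih]
  rcases Nat.lt_or_ge (d + 1) n with hd2 | hd2
  · have hgle : Nat.gcd n d ≤ d := Nat.gcd_le_right _ (by omega)
    have hgpos : 0 < Nat.gcd n d := Nat.gcd_pos_of_pos_right _ (by omega)
    have h3 := hstar (a + n - 1) d hd (by omega)
    rw [show a + n - 1 + 1 = a + n by omega, P_add_n hper] at h3
    rw [h3]
    exact hinvd _ (Nat.gcd_dvd_left _ _) hgpos (by omega) _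
  · have hd3 : d = n - 1 := by omega
    rw [hd3, ← hsh, hq]
    have : Nat.gcd n (n - 1) = 1 := by
      rw [Nat.gcd_self_sub_right (by omega), Nat.gcd_one_right]
    rw [this]

end Pool.Agent.J6H89.Dyn
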