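import Pool.Agent.J6H89.Dyn.Sol

/-!
# Functionals attached to monic polynomials over the polynomials in `z`
-/

namespace Pool.Agent.J6H89.Dyn

open Finset Polynomial

/-- A sum of values of a polynomial over the roots of a monic polynomial is rational. -/
theorem sum_roots_mem_range {R L ι : Type*} [CommRing R] [Field L] (f : R →+* L)
    (F : R[X]) (hF : F.Monic) (s : Finset ι) (r : ι → L)
    (hp : F.map f = ∏ i ∈ s, (X - C (r i))) (G : R[X]) :
    ∃ c : R, f c = ∑ i ∈ s, G.eval₂ f (r i) := by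
  classical
  have hmon : (F.map f).Monic := hF.map f
  set Q : L[X] := ∑ i ∈ s, C (G.eval₂ f (r i)) * ∏ j ∈ s.erase i, (X - C (r j)) with hQ
  have hdeg : (F.map f).natDegree = s.card := by
    rw [hp, natDegree_prod_of_monic _ _ (fun i _ => monic_X_sub_C _)]
    simp
  have hterm : ∀ i ∈ s, (∏ j ∈ s.erase i, (X - C (r j))).natDegree + 1 = s.card := by
    intro i hi
    rw [natDegree_prod_of_monic _ _ (fun i _ => monic_X_sub_C _)]
    simp only [natDegree_X_sub_C, Finset.sum_const, smul_eq_mul, mul_one]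
    exact Finset.card_erase_add_one hi
  have hQdeg : Q.degree < (F.map f).degree := by
    rw [degree_eq_natDegree hmon.ne_zero, hdeg, ← mem_degreeLT, hQ]
    refine Submodule.sum_mem _ (fun i hi => ?_)
    rw [mem_degreeLT]
    refine lt_of_le_of_lt degree_le_natDegree ?_
    have h1 := hterm i hi
    have h2 : (C (G.eval₂ f (r i)) * ∏ j ∈ s.erase i, (X - C (r j))).natDegree
        ≤ (∏ j ∈ s.erase i, (X - C (r j))).natDegree := natDegree_C_mul_le _ _
    exact_mod_cast (by omega : (C (G.eval₂ f (r i)) * ∏ j ∈ s.erase i, (X - C (r j))).natDegree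
      < s.card)
  have hq : ∀ i, ∃ q : L[X], G.map f = C (G.eval₂ f (r i)) + (X - C (r i)) * q := by
    intro i
    obtain ⟨q, hq⟩ := X_sub_C_dvd_sub_C_eval (p := G.map f) (a := r i)
    refine ⟨q, ?_⟩
    rw [← hq, eval_map]
    ring
  choose q hq using hq
  have hsum : Q + (F.map f) * (∑ i ∈ s, q i) = (G * derivative F).map f := by
    rw [Polynomial.map_mul, ← derivative_map, hp, derivative_prod_finset, Finset.mul_sum,
      Finset.mul_sum, hQ, ← Finset.sum_add_distrib]
    refine Finset.sum_congr rfl (fun i hi => ?_)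
    rw [derivative_X_sub_C, mul_one, hq i, ← Finset.mul_prod_erase s _ hi]
    ring
  have hmod : (G * derivative F).map f %ₘ (F.map f) = Q :=
    (div_modByMonic_unique (∑ i ∈ s, q i) Q hmon ⟨hsum, hQdeg⟩).2
  refine ⟨((G * derivative F) %ₘ F).coeff (s.card - 1), ?_⟩
  rw [← coeff_map, map_modByMonic f hF, hmod, hQ, finsetSum_coeff]
  refine Finset.sum_congr rfl (fun i hi => ?_)
  rw [coeff_C_mul]
  have h1 := hterm i hi
  have h2 : (∏ j ∈ s.erase i, (X - C (r j))).Monic := monic_prod_of_monic _ _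
    (fun i _ => monic_X_sub_C _)
  have h3 : s.card - 1 = (∏ j ∈ s.erase i, (X - C (r j))).natDegree := by omega
  rw [h3, h2.coeff_natDegree, mul_one]

variable {K : Type*} [Field K]

theorem ev_coeff (c : K[X]) (m : ℤ) (hm : 0 < m ∨ Odd m) : (ev K c).coeff m = 0 := by
  induction c using Polynomial.induction_on' with
  | add p q hp hq => rw [map_add, HahnSeries.coeff_add, hp, hq, add_zero]
  | monomial n a =>
    have h1 : ev K (monomial n a) = HahnSeries.single (-(2 * n : ℤ)) (a * (-1) ^ n) := by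
      rw [ev, coe_eval₂RingHom, eval₂_monomial, zL_pow, HahnSeries.C_mul_eq_smul]
      ext k
      rw [HahnSeries.coeff_smul, HahnSeries.coeff_single, HahnSeries.coeff_single]
      split_ifs <;> simp
    rw [h1]
    refine HahnSeries.coeff_single_of_ne ?_
    rcases hm with hm | ⟨k, hk⟩
    · omega
    · omega

/-- The functional summing over a finite family of points. -/
noncomputable def sumW {ι : Type*} (s : Finset ι) (p : ι → ℕ → Bool) :
    ((ℕ → Bool) → K) →ₗ[K] K := ∑ i ∈ s, LinearMap.proj (p i)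

theorem sumW_apply {ι : Type*} (s : Finset ι) (p : ι → ℕ → Bool) (φ : (ℕ → Bool) → K) :
    sumW s p φ = ∑ i ∈ s, φ (p i) := by
  simp [sumW]

theorem sumW_mem_Sol {ι : Type*} (s : Finset ι) (p : ι → ℕ → Bool) (F : K[X][X]) (hF : F.Monic)
    (hp : F.map (ev K) = ∏ i ∈ s, (X - C (X0 (p i)))) : (sumW s p : _ →ₗ[K] K) ∈ Sol K := by
  intro G m hm
  rw [sumW_apply]
  obtain ⟨c, hc⟩ := sum_roots_mem_range (ev K) F hF s (fun i => X0 (p i)) hp G
  have h1 := congrArg (fun x => HahnSeries.coeff x m) hc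
  simp only [HahnSeries.coeff_sum] at h1
  rw [← h1, ev_coeff c m hm]

theorem it_monic (R : Type*) [CommRing R] [Nontrivial R] (i : ℕ) :
    (it R i).Monic ∧ (it R i).natDegree = 2 ^ i := by
  induction i with
  | zero => simp [it, monic_X]
  | succ i ih =>
    have h1 : ((it R i) ^ 2).Monic := ih.1.pow 2
    have h2 : ((it R i) ^ 2).natDegree = 2 ^ (i + 1) := by
      rw [ih.1.natDegree_pow, ih.2]; ring
    have h3 : (C (X : R[X]) : R[X][X]).degree < ((it R i) ^ 2).degree := by
      refine lt_of_le_of_lt degree_C_le ?_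
      rw [degree_eq_natDegree h1.ne_zero, h2]
      exact_mod_cast Nat.pos_of_ne_zero (by positivity)
    rw [it]
    refine ⟨h1.add_of_left h3, ?_⟩
    rw [natDegree_add_eq_left_of_degree_lt h3, h2]

theorem it_sub_monic (R : Type*) [CommRing R] [Nontrivial R] (j m : ℕ) (hm : 0 < m) :
    (it R (j + m) - it R j).Monic ∧ (it R (j + m) - it R j).natDegree = 2 ^ (j + m) := by
  obtain ⟨h1, h2⟩ := it_monic R (j + m)
  obtain ⟨h3, h4⟩ := it_monic R j
  have h5 : (it R j).natDegree < (it R (j + m)).natDegree := by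
    rw [h2, h4]
    exact Nat.pow_lt_pow_right (by norm_num) (by omega)
  have h6 : (it R j).degree < (it R (j + m)).degree := degree_lt_degree h5
  refine ⟨h1.sub_of_left h6, ?_⟩
  rw [natDegree_sub_eq_left_of_natDegree_lt h5, h2]

/-- A monic polynomial with enough distinct roots is the product of its linear factors. -/
theorem eq_prod_of_roots {L ι : Type*} [Field L] (P : L[X]) (hP : P.Monic) (s : Finset ι)
    (r : ι → L) (hr : ∀ i ∈ s, ∀ j ∈ s, r i = r j → i = j) (h0 : ∀ i ∈ s, P.eval (r i) = 0)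
    (hd : P.natDegree ≤ s.card) : P = ∏ i ∈ s, (X - C (r i)) := by
  classical
  have hdvd : ∏ i ∈ s, (X - C (r i)) ∣ P := by
    refine Finset.prod_dvd_of_coprime ?_ ?_
    · intro i hi j hj hij
      refine isCoprime_X_sub_C_of_isUnit_sub (sub_ne_zero_of_ne ?_).isUnit
      exact fun h => hij (hr i hi j hj h)
    · intro i hi
      exact dvd_iff_isRoot.2 (h0 i hi)
  have hm : (∏ i ∈ s, (X - C (r i))).Monic := monic_prod_of_monic _ _
    (fun i _ => monic_X_sub_C _)
  have hdeg : (∏ i ∈ s, (X - C (r i))).natDegree = s.card := by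
    rw [natDegree_prod_of_monic _ _ (fun i _ => monic_X_sub_C _)]
    simp
  exact (eq_of_monic_of_dvd_of_natDegree_le hm hP hdvd (by rw [hdeg]; exact hd))

end Pool.Agent.J6H89.Dyn
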