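import Pool.Agent.J6H89.Dyn.Nu

/-!
# Functions annihilated by all curve functionals are null on a window
-/

namespace Pool.Agent.J6H89.Dyn

open Finset Polynomial

variable {K : Type*} [Field K]

theorem exists_moebius (g : ℕ → K) : ∃ f : ℕ → K, ∀ n > 0, ∑ i ∈ n.divisors, f i = g n :=
  ⟨fun n => ∑ x ∈ n.divisorsAntidiagonal, (ArithmeticFunction.moebius x.fst : K) * g x.snd,
    ArithmeticFunction.sum_eq_iff_sum_mul_moebius_eq.2 (fun _ _ => rfl)⟩

/-- A function of the window `0, …, N` annihilated by all the functionals `nu j m` is annihilated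
by every functional satisfying the relations. -/
theorem rho (h2 : (2 : K) ≠ 0) (N : ℕ) (hinv : ∀ m : ℕ, 0 < m → m + 7 ≤ 2 ^ N → (m : K) ≠ 0)
    {W : ((ℕ → Bool) → K) →ₗ[K] K} (hW : W ∈ Sol K) (φ : (ℕ → Bool) → K)
    (hφ : Dep (N + 1) φ) (hnu : ∀ j m, 0 < m → nu j m φ = 0) : W φ = 0 := by
  have hf : ∀ i : ℕ, ∃ f : ℕ → K, ∀ n > 0, ∑ m ∈ n.divisors, f m = W (chi {i, i + n}) :=
    fun i => exists_moebius (fun n => W (chi {i, i + n}))
  choose f hf using hf
  set B : ℕ → ℕ → K := fun j m => if j = 0 then f 0 m else f j m - f (j - 1) m with hB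
  have hBsum : ∀ i m, ∑ j ∈ range (i + 1), B j m = f i m := by
    intro i m
    induction i with
    | zero => simp [hB]
    | succ i ih =>
      rw [Finset.sum_range_succ, ih, hB]
      simp
  set U : ((ℕ → Bool) → K) →ₗ[K] K := ∑ j ∈ range (N + 1), ∑ m ∈ Icc 1 N, B j m • nu j m with hU
  have hUS : U ∈ Sol K := by
    refine Submodule.sum_mem _ (fun j _ => Submodule.sum_mem _ (fun m hm => ?_))
    exact Submodule.smul_mem _ _ (nu_mem_Sol h2 j m (Finset.mem_Icc.1 hm).1)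
  have hUφ : ∀ ψ, U ψ = ∑ j ∈ range (N + 1), ∑ m ∈ Icc 1 N, B j m * nu j m ψ := by
    intro ψ
    rw [hU]
    simp [LinearMap.sum_apply, LinearMap.smul_apply]
  set b : K := W (chi ∅) - U (chi ∅) with hb
  set V : ((ℕ → Bool) → K) →ₗ[K] K := W - U - b • nu (N + 1) 1 with hV
  have hVS : V ∈ Sol K := Submodule.sub_mem _ (Submodule.sub_mem _ hW hUS)
    (Submodule.smul_mem _ _ (nu_mem_Sol h2 (N + 1) 1 one_pos))
  have hV0 : V (chi ∅) = 0 := by
    rw [hV, LinearMap.sub_apply, LinearMap.sub_apply, LinearMap.smul_apply, nu_empty h2, hb]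
    simp
  have hVp : ∀ i j, i < j → j ≤ N → V (chi {i, j}) = 0 := by
    intro i j hij hjN
    obtain ⟨D, rfl⟩ : ∃ D, j = i + D := ⟨j - i, by omega⟩
    have hD : 0 < D := by omega
    rw [hV, LinearMap.sub_apply, LinearMap.sub_apply, LinearMap.smul_apply,
      nu_pair h2 (N + 1) 1 i (i + D) one_pos hij, if_neg (by omega), smul_zero, sub_zero, hUφ]
    have h3 : ∑ j ∈ range (N + 1), ∑ m ∈ Icc 1 N, B j m * nu j m (chi {i, i + D})
        = ∑ m ∈ Icc 1 N, ∑ j ∈ range (N + 1), if j ≤ i ∧ m ∣ D then B j m else 0 := by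
      rw [Finset.sum_comm]
      refine Finset.sum_congr rfl (fun m hm => Finset.sum_congr rfl (fun j _ => ?_))
      rw [nu_pair h2 j m i (i + D) (Finset.mem_Icc.1 hm).1 hij, Nat.add_sub_cancel_left]
      split_ifs <;> simp
    have h4 : ∀ m, ∑ j ∈ range (N + 1), (if j ≤ i ∧ m ∣ D then B j m else 0)
        = if m ∣ D then f i m else 0 := by
      intro m
      by_cases hm : m ∣ D
      · rw [if_pos hm, ← hBsum i m, ← Finset.sum_filter]
        refine Finset.sum_congr ?_ (fun _ _ => rfl)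
        ext j
        simp only [Finset.mem_filter, Finset.mem_range]
        constructor
        · rintro ⟨_, h, _⟩; omega
        · intro h; exact ⟨by omega, by omega, hm⟩
      · rw [if_neg hm]
        refine Finset.sum_eq_zero (fun j _ => ?_)
        rw [if_neg (fun h => hm h.2)]
    rw [h3, Finset.sum_congr rfl (fun m _ => h4 m), ← Finset.sum_filter]
    have h5 : (Icc 1 N).filter (fun m => m ∣ D) = D.divisors := by
      ext m
      simp only [Finset.mem_filter, Finset.mem_Icc, Nat.mem_divisors]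
      constructor
      · rintro ⟨_, h⟩; exact ⟨h, hD.ne'⟩
      · rintro ⟨h, _⟩
        have := Nat.le_of_dvd hD h
        have := Nat.pos_of_dvd_of_pos h hD
        exact ⟨⟨by omega, by omega⟩, h⟩
    rw [h5, hf i D hD, sub_self]
  have hVφ := elim h2 hVS N hinv hV0 hVp (N + 1) le_rfl φ hφ
  have hU0 : U φ = 0 := by
    rw [hUφ]
    refine Finset.sum_eq_zero (fun j _ => Finset.sum_eq_zero (fun m hm => ?_))
    rw [hnu j m (Finset.mem_Icc.1 hm).1, mul_zero]
  rw [hV, LinearMap.sub_apply, LinearMap.sub_apply, LinearMap.smul_apply,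
    hnu (N + 1) 1 one_pos, hU0, smul_zero, sub_zero, sub_zero] at hVφ
  exact hVφ

/-- The residues `0, 1, 1 + d, n` modulo `m` cancel in pairs exactly when `m` divides both `n` and
`d`, or both `n - 1` and `d + 1`. -/
theorem nu_quad (h2 : (2 : K) ≠ 0) (m n d : ℕ) (hm : 1 < m) (hn : 1 ≤ n) :
    nu 0 m (fun ε => sg K (ε 0) * sg K (ε 1) * (sg K (ε (1 + d)) * sg K (ε n)))
      = if (m ∣ n ∧ m ∣ d) ∨ (m ∣ n - 1 ∧ m ∣ d + 1) then 1 else 0 := by
  have hm0 : 0 < m := by omega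
  have i0 : idx 0 m 0 = 0 := by simp [idx]
  have i1 : idx 0 m 1 = 1 := by simp [idx, Nat.mod_eq_of_lt hm]
  have ii : ∀ i, idx 0 m i = i % m := by intro i; simp [idx]
  have hd1 : (1 + d) % m = 1 ↔ m ∣ d := by
    rw [show (1 : ℕ) = 1 % m from (Nat.mod_eq_of_lt hm).symm]
    constructor
    · intro h
      rw [Nat.mod_eq_of_lt hm] at h
      have h3 : 1 ≡ 1 + d [MOD m] := by
        unfold Nat.ModEq; rw [h, Nat.mod_eq_of_lt hm]
      have := (Nat.modEq_iff_dvd' (by omega)).1 h3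
      simpa using this
    · intro h
      rw [Nat.mod_eq_of_lt hm, Nat.add_mod, Nat.mod_eq_zero_of_dvd h, add_zero, Nat.mod_mod,
        Nat.mod_eq_of_lt hm]
  have hd0 : (1 + d) % m = 0 ↔ m ∣ d + 1 := by
    rw [add_comm 1 d]; exact (Nat.dvd_iff_mod_eq_zero).symm
  have hn0 : n % m = 0 ↔ m ∣ n := (Nat.dvd_iff_mod_eq_zero).symm
  have hn1 : n % m = 1 ↔ m ∣ n - 1 := by
    constructor
    · intro h
      have h3 : 1 ≡ n [MOD m] := by
        unfold Nat.ModEq; rw [h, Nat.mod_eq_of_lt hm]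
      exact (Nat.modEq_iff_dvd' hn).1 h3
    · intro h
      have h3 : 1 ≡ n [MOD m] := (Nat.modEq_iff_dvd' hn).2 h
      have : 1 % m = n % m := h3
      rw [← this, Nat.mod_eq_of_lt hm]
  have flip : ∀ r < m, ((if (0 : ℕ) = r then (-1 : K) else 1) * (if (1 : ℕ) = r then -1 else 1)
      * ((if (1 + d) % m = r then -1 else 1) * (if n % m = r then -1 else 1)) = -1) →
      nu 0 m (fun ε => sg K (ε 0) * sg K (ε 1) * (sg K (ε (1 + d)) * sg K (ε n))) = 0 := by
    intro r hr h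
    refine nu_flip h2 0 m r (by omega) _ (fun S _ => ?_)
    rw [sg_flip, sg_flip, sg_flip, sg_flip, i0, i1, ii, ii]
    linear_combination (sg K (pt 0 m S 0) * sg K (pt 0 m S 1)
      * (sg K (pt 0 m S (1 + d)) * sg K (pt 0 m S n))) * h
  by_cases hA : (1 + d) % m = 1 ∧ n % m = 0
  · rw [if_pos (Or.inl ⟨hn0.1 hA.2, hd1.1 hA.1⟩)]
    refine nu_const h2 0 m _ (fun S _ => ?_)
    have e1 : pt 0 m S (1 + d) = pt 0 m S 1 := by simp only [pt, i1, ii (1 + d), hA.1]
    have e2 : pt 0 m S n = pt 0 m S 0 := by simp only [pt, i0, ii n, hA.2]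
    rw [e1, e2]
    have h3 := sg_mul_self (K := K) (pt 0 m S 0)
    have h4 := sg_mul_self (K := K) (pt 0 m S 1)
    linear_combination (sg K (pt 0 m S 1) * sg K (pt 0 m S 1)) * h3 + h4
  by_cases hB : (1 + d) % m = 0 ∧ n % m = 1
  · rw [if_pos (Or.inr ⟨hn1.1 hB.2, hd0.1 hB.1⟩)]
    refine nu_const h2 0 m _ (fun S _ => ?_)
    have e1 : pt 0 m S (1 + d) = pt 0 m S 0 := by simp only [pt, i0, ii (1 + d), hB.1]
    have e2 : pt 0 m S n = pt 0 m S 1 := by simp only [pt, i1, ii n, hB.2]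
    rw [e1, e2]
    have h3 := sg_mul_self (K := K) (pt 0 m S 0)
    have h4 := sg_mul_self (K := K) (pt 0 m S 1)
    linear_combination (sg K (pt 0 m S 1) * sg K (pt 0 m S 1)) * h3 + h4
  rw [if_neg (by
    rintro (⟨h3, h4⟩ | ⟨h3, h4⟩)
    · exact hA ⟨hd1.2 h4, hn0.2 h3⟩
    · exact hB ⟨hd0.2 h4, hn1.2 h3⟩)]
  set a := (1 + d) % m with ha
  set c := n % m with hc
  have ham : a < m := Nat.mod_lt _ hm0
  have hcm : c < m := Nat.mod_lt _ hm0
  by_cases hac : a = c
  · by_cases ha0 : a = 0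
    · refine flip 1 hm ?_
      rw [← hac, ha0]; simp
    · refine flip 0 hm0 ?_
      rw [← hac]; simp [ha0]
  · by_cases ha01 : a = 0 ∨ a = 1
    · have hc01 : ¬ (c = 0) ∧ ¬ (c = 1) := by
        rcases ha01 with h | h
        · exact ⟨fun h' => hac (h.trans h'.symm), fun h' => hB ⟨h, h'⟩⟩
        · exact ⟨fun h' => hA ⟨h, h'⟩, fun h' => hac (h.trans h'.symm)⟩
      refine flip c hcm ?_
      rw [if_neg (fun h => hc01.1 h.symm), if_neg (fun h => hc01.2 h.symm), if_neg hac, if_pos rfl]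
      norm_num
    · rw [not_or] at ha01
      refine flip a ham ?_
      rw [if_neg (fun h => ha01.1 h.symm), if_neg (fun h => ha01.2 h.symm), if_pos rfl,
        if_neg (fun h => hac h.symm)]
      norm_num

end Pool.Agent.J6H89.Dyn
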