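import Mathlib

/-!
# The expansions at infinity of the periodic points of `x ^ 2 + z`

For a sequence of bits `ε` the power series `us ε` solves `us ε ^ 2 = 1 + t * us (sh ε)`
with constant term `±1` prescribed by the first bit.  Its coefficients are `cf m ε`.
-/

namespace Pool.Agent.J6H89.Dyn

open Finset

variable (K : Type*) [Field K]

/-- The sign attached to a bit. -/
def sg (b : Bool) : K := if b then 1 else -1

/-- The shift of a sequence. -/
def sh (ε : ℕ → Bool) : ℕ → Bool := fun i => ε (i + 1)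

/-- The coefficients of the expansion attached to a sequence of signs. -/
def cf : ℕ → (ℕ → Bool) → K
  | 0, ε => sg K (ε 0)
  | (m + 1), ε =>
      sg K (ε 0) / 2 * (cf m (sh ε) - ∑ i : Fin m, cf (i + 1) ε * cf (m - i) ε)
  termination_by m _ => m

variable {K}

theorem sg_mul_self (b : Bool) : sg K b * sg K b = 1 := by
  cases b <;> simp [sg]

theorem sg_ne_zero (b : Bool) : sg K b ≠ 0 := by
  intro h
  have := sg_mul_self (K := K) b
  rw [h] at this
  simp at this

theorem cf_zero (ε : ℕ → Bool) : cf K 0 ε = sg K (ε 0) := by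
  rw [cf]

theorem cf_succ (m : ℕ) (ε : ℕ → Bool) :
    cf K (m + 1) ε =
      sg K (ε 0) / 2 * (cf K m (sh ε) - ∑ i ∈ range m, cf K (i + 1) ε * cf K (m - i) ε) := by
  rw [cf, Fin.sum_univ_eq_sum_range (fun i => cf K (i + 1) ε * cf K (m - i) ε) m]

/-- The coefficient `cf m ε` only depends on the first `m + 1` bits. -/
theorem cf_congr (m : ℕ) : ∀ (ε ε' : ℕ → Bool), (∀ i ≤ m, ε i = ε' i) →
    cf K m ε = cf K m ε' := by
  induction m using Nat.strong_induction_on with
  | _ m ih =>
    intro ε ε' h
    rcases m with _ | m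
    · rw [cf_zero, cf_zero, h 0 le_rfl]
    · rw [cf_succ, cf_succ, h 0 (Nat.zero_le _)]
      congr 1
      congr 1
      · exact ih m (Nat.lt_succ_self m) _ _ (fun i hi => h (i + 1) (by omega))
      · refine Finset.sum_congr rfl (fun i hi => ?_)
        rw [Finset.mem_range] at hi
        rw [ih (i + 1) (by omega) ε ε' (fun j hj => h j (by omega)),
          ih (m - i) (by omega) ε ε' (fun j hj => h j (by omega))]

/-- The product of the first `N` signs. -/
def sgP (ε : ℕ → Bool) (S : Finset ℕ) : K := ∏ i ∈ S, sg K (ε i)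

theorem cf_diff (N : ℕ) : ∀ (ε ε' : ℕ → Bool), (∀ i < N, ε i = ε' i) →
    cf K N ε - cf K N ε' =
      (1 / 2 : K) ^ N * (∏ i ∈ range N, sg K (ε i)) * (sg K (ε N) - sg K (ε' N)) := by
  induction N with
  | zero =>
    intro ε ε' _
    simp [cf_zero]
  | succ M ih =>
    intro ε ε' h
    rw [cf_succ, cf_succ, h 0 (Nat.succ_pos _)]
    have h1 : ∑ i ∈ range M, cf K (i + 1) ε * cf K (M - i) ε
        = ∑ i ∈ range M, cf K (i + 1) ε' * cf K (M - i) ε' := by
      refine Finset.sum_congr rfl (fun i hi => ?_)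
      rw [Finset.mem_range] at hi
      rw [cf_congr (i + 1) ε ε' (fun j hj => h j (by omega)),
        cf_congr (M - i) ε ε' (fun j hj => h j (by omega))]
    have h2 := ih (sh ε) (sh ε') (fun i hi => h (i + 1) (by omega))
    rw [Finset.prod_range_succ']
    rw [h1]
    have h3 : ∀ i, sh ε i = ε (i + 1) := fun _ => rfl
    have h3' : ∀ i, sh ε' i = ε' (i + 1) := fun _ => rfl
    simp only [h3, h3'] at h2
    rw [h 0 (Nat.succ_pos _)]
    have : sg K (ε' 0) / 2 * (cf K M (sh ε) - ∑ i ∈ range M, cf K (i + 1) ε' * cf K (M - i) ε')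
        - sg K (ε' 0) / 2 * (cf K M (sh ε') - ∑ i ∈ range M, cf K (i + 1) ε' * cf K (M - i) ε')
        = sg K (ε' 0) / 2 * (cf K M (sh ε) - cf K M (sh ε')) := by ring
    rw [this, h2]
    ring

/-- The power series attached to a sequence of signs. -/
noncomputable def us (ε : ℕ → Bool) : PowerSeries K := PowerSeries.mk (fun m => cf K m ε)

theorem us_sq (h2 : (2 : K) ≠ 0) (ε : ℕ → Bool) :
    us (K := K) ε * us ε = 1 + PowerSeries.X * us (sh ε) := by
  ext m
  rcases m with _ | m
  · simp [us, cf_zero, sg_mul_self]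
  · rw [PowerSeries.coeff_mul, Finset.Nat.sum_antidiagonal_eq_sum_range_succ
      (fun i j => PowerSeries.coeff i (us (K := K) ε) * PowerSeries.coeff j (us ε))]
    simp only [us, PowerSeries.coeff_mk, map_add, PowerSeries.coeff_succ_X_mul]
    rw [Finset.sum_range_succ, Finset.sum_range_succ']
    have h3 : ∑ k ∈ range m, cf K (k + 1) ε * cf K (m + 1 - (k + 1)) ε
        = ∑ k ∈ range m, cf K (k + 1) ε * cf K (m - k) ε := by
      refine Finset.sum_congr rfl (fun i hi => ?_)
      rw [Nat.add_sub_add_right]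
    rw [h3]
    have h4 := cf_succ (K := K) m ε
    have h5 : cf K m (sh ε) = ∑ i ∈ range m, cf K (i + 1) ε * cf K (m - i) ε
        + 2 * sg K (ε 0) * cf K (m + 1) ε := by
      rw [h4]
      have := sg_mul_self (K := K) (ε 0)
      field_simp
      linear_combination (-(cf K m (sh ε)) + ∑ i ∈ range m, cf K (i + 1) ε * cf K (m - i) ε) * this
    rw [h5]
    simp only [Nat.sub_zero, Nat.sub_self, cf_zero, PowerSeries.coeff_one]
    simp
    ring

end Pool.Agent.J6H89.Dyn
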