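import Pool.Agent.J6H89.Dyn.Window

/-!
# Functionals satisfying all relations at infinity, and the elimination of characters
-/

namespace Pool.Agent.J6H89.Dyn

open Finset Polynomial

variable (K : Type*) [Field K]

/-- Linear functionals on functions of a sequence which annihilate all coefficients of positive or
odd index of every polynomial in `x` and `z`. -/
noncomputable def Sol : Submodule K (((ℕ → Bool) → K) →ₗ[K] K) where
  carrier := {W | ∀ (G : K[X][X]) (m : ℤ), (0 < m ∨ Odd m) →
    W (fun ε => (G.eval₂ (ev K) (X0 ε)).coeff m) = 0}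
  add_mem' := by
    intro a b ha hb G m hm
    rw [LinearMap.add_apply, ha G m hm, hb G m hm, add_zero]
  zero_mem' := by
    intro G m _
    rfl
  smul_mem' := by
    intro c a ha G m hm
    rw [LinearMap.smul_apply, ha G m hm, smul_zero]

variable {K}

/-- The Walsh character of a finite set of indices. -/
def chi (S : Finset ℕ) : (ℕ → Bool) → K := fun ε => ∏ i ∈ S, sg K (ε i)

theorem prod_X0 (ε : ℕ → Bool) (S : Finset ℕ) :
    FI (-(S.card : ℤ)) (∏ i ∈ S, (X0 (sh^[i] ε) : LaurentSeries K)) ∧
      (∏ i ∈ S, (X0 (sh^[i] ε) : LaurentSeries K)).coeff (-(S.card : ℤ)) = chi S ε := by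
  classical
  induction S using Finset.induction_on with
  | empty =>
    constructor
    · simp only [Finset.prod_empty]
      rw [← HahnSeries.single_zero_one]; exact FI.single _
    · simp [chi]
  | insert a S ha ih =>
    rw [Finset.prod_insert ha, Finset.card_insert_of_notMem ha]
    have e : -(((S.card + 1 : ℕ)) : ℤ) = -1 + -(S.card : ℤ) := by push_cast; ring
    rw [e]
    refine ⟨(X0_FI _).mul ih.1, ?_⟩
    rw [(X0_FI _).coeff_mul ih.1, ih.2, X0_coeff_neg_one, sh_iterate, add_zero]
    simp [chi, Finset.prod_insert ha]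

theorem Sol.odd (h2 : (2 : K) ≠ 0) {W : ((ℕ → Bool) → K) →ₗ[K] K} (hW : W ∈ Sol K)
    (S : Finset ℕ) (hS : Odd S.card) : W (chi S) = 0 := by
  have h := hW (∏ i ∈ S, it K i) (-(S.card : ℤ)) (Or.inr (by
    have h1 : Odd (S.card : ℤ) := by exact_mod_cast hS
    exact h1.neg))
  have e : (fun ε => ((∏ i ∈ S, it K i).eval₂ (ev K) (X0 ε)).coeff (-(S.card : ℤ)))
      = (chi S : (ℕ → Bool) → K) := by
    funext ε
    rw [eval₂_finsetProd]
    have : ∏ i ∈ S, (it K i).eval₂ (ev K) (X0 ε)
        = ∏ i ∈ S, (X0 (sh^[i] ε) : LaurentSeries K) :=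
      Finset.prod_congr rfl (fun i _ => eval_it h2 ε i)
    rw [this]
    exact (prod_X0 ε S).2
  rwa [e] at h

/-- The function depends only on the coordinates below `M`. -/
def Dep (M : ℕ) (φ : (ℕ → Bool) → K) : Prop :=
  ∀ ε ε' : ℕ → Bool, (∀ i < M, ε i = ε' i) → φ ε = φ ε'

omit [Field K] in
theorem Dep.mono {M N : ℕ} (h : M ≤ N) {φ : (ℕ → Bool) → K} (hφ : Dep M φ) : Dep N φ :=
  fun ε ε' he => hφ ε ε' (fun i hi => he i (lt_of_lt_of_le hi h))

/-- Splitting off one coordinate. -/
theorem Dep.split (h2 : (2 : K) ≠ 0) {M : ℕ} {φ : (ℕ → Bool) → K} (hφ : Dep (M + 1) φ) :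
    ∃ φ0 φ1 : (ℕ → Bool) → K, Dep M φ0 ∧ Dep M φ1 ∧
      φ = φ0 + (fun ε => sg K (ε M)) * φ1 := by
  refine ⟨fun ε => (φ (Function.update ε M true) + φ (Function.update ε M false)) / 2,
    fun ε => (φ (Function.update ε M true) - φ (Function.update ε M false)) / 2, ?_, ?_, ?_⟩
  · intro ε ε' h
    have : ∀ b, φ (Function.update ε M b) = φ (Function.update ε' M b) := by
      intro b
      refine hφ _ _ (fun i hi => ?_)
      by_cases hiM : i = M
      · subst hiM; simp
      · rw [Function.update_of_ne hiM, Function.update_of_ne hiM]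
        exact h i (by omega)
    simp only [this]
  · intro ε ε' h
    have : ∀ b, φ (Function.update ε M b) = φ (Function.update ε' M b) := by
      intro b
      refine hφ _ _ (fun i hi => ?_)
      by_cases hiM : i = M
      · subst hiM; simp
      · rw [Function.update_of_ne hiM, Function.update_of_ne hiM]
        exact h i (by omega)
    simp only [this]
  · funext ε
    simp only [Pi.add_apply, Pi.mul_apply]
    cases hb : ε M
    · have : Function.update ε M false = ε := by rw [← hb, Function.update_eq_self]
      rw [this]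
      simp only [sg, Bool.false_eq_true, if_false]
      field_simp
      ring
    · have : Function.update ε M true = ε := by rw [← hb, Function.update_eq_self]
      rw [this]
      simp only [sg, if_true]
      field_simp
      ring

theorem chi_insert (M : ℕ) (T : Finset ℕ) (hM : M ∉ T) :
    (fun ε : ℕ → Bool => sg K (ε M)) * chi T = chi (insert M T) := by
  funext ε
  simp [chi, Finset.prod_insert hM]

theorem Dep.mem_span (h2 : (2 : K) ≠ 0) (M : ℕ) : ∀ φ : (ℕ → Bool) → K, Dep M φ →
    φ ∈ Submodule.span K ((fun T : Finset ℕ => (chi T : (ℕ → Bool) → K)) '' {T | ∀ i ∈ T, i < M}) := by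
  induction M with
  | zero =>
    intro φ hφ
    have : φ = φ (fun _ => true) • (chi ∅ : (ℕ → Bool) → K) := by
      funext ε
      simp only [chi, Finset.prod_empty, Pi.smul_apply, smul_eq_mul, mul_one]
      exact hφ _ _ (fun i hi => absurd hi (Nat.not_lt_zero i))
    rw [this]
    exact Submodule.smul_mem _ _ (Submodule.subset_span ⟨∅, by simp, rfl⟩)
  | succ M ih =>
    intro φ hφ
    obtain ⟨φ0, φ1, h0, h1, he⟩ := hφ.split h2
    rw [he]
    refine Submodule.add_mem _ ?_ ?_
    · refine Submodule.span_mono ?_ (ih φ0 h0)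
      rintro _ ⟨T, hT, rfl⟩
      exact ⟨T, fun i hi => (hT i hi).trans (Nat.lt_succ_self M), rfl⟩
    · have h3 := ih φ1 h1
      refine Submodule.span_induction
        (p := fun x _ => (fun ε : ℕ → Bool => sg K (ε M)) * x ∈ Submodule.span K
          ((fun T : Finset ℕ => (chi T : (ℕ → Bool) → K)) '' {T | ∀ i ∈ T, i < M + 1}))
        ?_ ?_ ?_ ?_ h3
      · rintro _ ⟨T, hT, rfl⟩
        have hM : M ∉ T := fun h => lt_irrefl _ (hT M h)
        simp only
        rw [chi_insert M T hM]
        refine Submodule.subset_span ⟨insert M T, ?_, rfl⟩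
        intro i hi
        rcases Finset.mem_insert.1 hi with rfl | hi
        · exact Nat.lt_succ_self _
        · exact (hT i hi).trans (Nat.lt_succ_self M)
      · rw [mul_zero]; exact Submodule.zero_mem _
      · intro x y _ _ hx hy
        rw [mul_add]; exact Submodule.add_mem _ hx hy
      · intro a x _ hx
        rw [mul_smul_comm]; exact Submodule.smul_mem _ _ hx

/-- Elimination: a functional satisfying the relations and vanishing on constants and on pairs
vanishes on all functions of a window. -/
theorem elim (h2 : (2 : K) ≠ 0) {W : ((ℕ → Bool) → K) →ₗ[K] K} (hW : W ∈ Sol K) (N : ℕ)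
    (hinv : ∀ m : ℕ, 0 < m → m + 7 ≤ 2 ^ N → (m : K) ≠ 0)
    (h0 : W (chi ∅) = 0) (hpair : ∀ i j, i < j → j ≤ N → W (chi {i, j}) = 0) :
    ∀ M ≤ N + 1, ∀ φ : (ℕ → Bool) → K, Dep M φ → W φ = 0 := by
  intro M
  induction M with
  | zero =>
    intro _ φ hφ
    have : φ = φ (fun _ => true) • (chi ∅ : (ℕ → Bool) → K) := by
      funext ε
      simp only [chi, Finset.prod_empty, Pi.smul_apply, smul_eq_mul, mul_one]
      exact hφ _ _ (fun i hi => absurd hi (Nat.not_lt_zero i))
    rw [this, map_smul, h0, smul_zero]
  | succ M ih =>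
    intro hM φ hφ
    have ih := ih (by omega)
    have key : ∀ T : Finset ℕ, (∀ i ∈ T, i < M) → W (chi (insert M T)) = 0 := by
      intro T hT
      have hMT : M ∉ T := fun h => lt_irrefl _ (hT M h)
      rcases Nat.even_or_odd T.card with he | ho
      · refine Sol.odd h2 hW _ ?_
        rw [Finset.card_insert_of_notMem hMT]
        exact he.add_one
      · by_cases h1 : T.card = 1
        · obtain ⟨i, hi⟩ := Finset.card_eq_one.1 h1
          subst hi
          rw [Finset.pair_comm]
          exact hpair i M (hT i (Finset.mem_singleton_self i)) (by omega)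
        · obtain ⟨k, hk⟩ := ho
          obtain ⟨a, rfl⟩ : ∃ a, k = a + 1 := ⟨k - 1, by omega⟩
          obtain ⟨G, c, hc, hG⟩ := window h2 M T hT a (by omega) (fun m hm hm' =>
            hinv m hm (hm'.trans (Nat.pow_le_pow_right (by norm_num) (by omega))))
          have hv := hW G 2 (Or.inl (by norm_num))
          have hdep : Dep M ((fun ε => (G.eval₂ (ev K) (X0 ε)).coeff 2)
              - c • (chi (insert M T) : (ℕ → Bool) → K)) := by
            intro ε ε' h
            have h3 := hG ε ε' h
            have h4 : (chi T ε : K) = chi T ε' :=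
              Finset.prod_congr rfl (fun i hi => by rw [h i (hT i hi)])
            simp only [Pi.sub_apply, Pi.smul_apply, smul_eq_mul]
            have h5 : (chi (insert M T) ε : K) = sg K (ε M) * chi T ε := by
              simp [chi, Finset.prod_insert hMT]
            have h6 : (chi (insert M T) ε' : K) = sg K (ε' M) * chi T ε' := by
              simp [chi, Finset.prod_insert hMT]
            rw [h5, h6, ← h4]
            change _ = c * chi T ε * _ at h3
            linear_combination h3
          have h7 := ih _ hdep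
          rw [map_sub, hv, map_smul, zero_sub, neg_eq_zero, smul_eq_mul] at h7
          exact (mul_eq_zero.1 h7).resolve_left hc
    obtain ⟨φ0, φ1, hd0, hd1, he⟩ := hφ.split h2
    rw [he, map_add, ih φ0 hd0, zero_add]
    refine Submodule.span_induction
      (p := fun x _ => W ((fun ε : ℕ → Bool => sg K (ε M)) * x) = 0)
      ?_ ?_ ?_ ?_ (Dep.mem_span h2 M φ1 hd1)
    · rintro _ ⟨T, hT, rfl⟩
      have hMT : M ∉ T := fun h => lt_irrefl _ (hT M h)
      simp only
      rw [chi_insert M T hMT]
      exact key T hT
    · rw [mul_zero, map_zero]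
    · intro x y _ _ hx hy
      rw [mul_add, map_add, hx, hy, add_zero]
    · intro a x _ hx
      rw [mul_smul_comm, map_smul, hx, smul_zero]

end Pool.Agent.J6H89.Dyn
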