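import Pool.Agent.J6H89.Dyn.Main

/-!
# Dynatomic polynomials in characteristic two
-/

namespace Pool.Agent.J6H89.Dyn

open Finset Polynomial

theorem natDegree_dynatomic (n : ℕ) (hn : 0 < n) : (dynatomic n).natDegree = (Ex n).card := by
  have h := map_dynatomic (K := ℚ) (by norm_num) n hn
  have h1 := dynatomic_monic n hn
  rw [← h1.natDegree_map (toK ℚ), ← (h1.map (toK ℚ)).natDegree_map (ev ℚ), h,
    natDegree_prod_of_monic _ _ (fun T _ => monic_X_sub_C _)]
  simp [lin]

theorem single_mem_Ex (n r : ℕ) (hr : r < n) : ({r} : Finset ℕ) ∈ Ex n := by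
  rw [Ex, Finset.mem_filter, Finset.mem_powerset]
  refine ⟨by simpa using hr, ?_⟩
  by_contra hne
  have hn : 0 < n := by omega
  have hlt : mp n {r} < n := lt_of_le_of_ne (Nat.le_of_dvd hn (mp_dvd n {r})) hne
  have hpos : 0 < mp n {r} := Nat.pos_of_dvd_of_pos (mp_dvd n {r}) hn
  have h1 := (mp_dvd_iff n _ {r}).1 (dvd_refl (mp n {r})) r
  simp only [pt, idx_self 0 n r (by omega)] at h1
  have h2 : idx 0 n (r + mp n {r}) = (r + mp n {r}) % n := by simp [idx]
  rw [h2] at h1
  simp only [Finset.mem_singleton, decide_true, decide_eq_true_eq] at h1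
  rcases Nat.lt_or_ge (r + mp n {r}) n with h3 | h3
  · rw [Nat.mod_eq_of_lt h3] at h1; omega
  · rw [Nat.mod_eq_sub_mod h3, Nat.mod_eq_of_lt (by omega)] at h1; omega

theorem three_le_card_Ex (n : ℕ) (hn : 3 ≤ n) : 3 ≤ (Ex n).card := by
  have h : ({{0}, {1}, {2}} : Finset (Finset ℕ)) ⊆ Ex n := by
    intro T hT
    simp only [Finset.mem_insert, Finset.mem_singleton] at hT
    rcases hT with rfl | rfl | rfl
    · exact single_mem_Ex n 0 (by omega)
    · exact single_mem_Ex n 1 (by omega)
    · exact single_mem_Ex n 2 (by omega)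
  have h2 : ({{0}, {1}, {2}} : Finset (Finset ℕ)).card = 3 := by decide
  rw [← h2]
  exact Finset.card_le_card h

variable {K : Type*} [Field K]

/-- The additive polynomials `w + w ^ 2 + ⋯`. -/
noncomputable def addP (K : Type*) [Field K] : ℕ → K[X]
  | 0 => 0
  | (d + 1) => addP K d ^ 2 + X

theorem addP_monic (d : ℕ) : (addP K (d + 1)).Monic ∧ 0 < (addP K (d + 1)).natDegree := by
  induction d with
  | zero => simp [addP, monic_X]
  | succ d ih =>
    rw [addP]
    have h1 : ((addP K (d + 1)) ^ 2).Monic := ih.1.pow 2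
    have h2 : 2 ≤ ((addP K (d + 1)) ^ 2).natDegree := by
      rw [ih.1.natDegree_pow]; omega
    have h3 : (X : K[X]).degree < ((addP K (d + 1)) ^ 2).degree := by
      rw [degree_X, degree_eq_natDegree h1.ne_zero]
      exact_mod_cast (by omega : 1 < ((addP K (d + 1)) ^ 2).natDegree)
    refine ⟨h1.add_of_left h3, ?_⟩
    rw [natDegree_add_eq_left_of_degree_lt h3]; omega

/-- The quadratic polynomial `x ^ 2 + x + z`. -/
noncomputable def quad (K : Type*) [Field K] : K[X][X] := X ^ 2 + X + C X

theorem it_two [CharP K 2] (d : ℕ) :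
    it K d - X = (addP K d).eval₂ ((C : K[X] →+* K[X][X]).comp C) (quad K) := by
  have h2 : (2 : K[X][X]) = 0 := CharTwo.two_eq_zero
  induction d with
  | zero => simp [it, addP]
  | succ d ih =>
    rw [addP, eval₂_add, eval₂_pow, ← ih, eval₂_X, it, quad]
    linear_combination (X * it K d - X ^ 2 - X) * h2

theorem reducible_two [CharP K 2] [IsAlgClosed K] (n : ℕ) (hn : 3 ≤ n) :
    ¬ Irreducible ((dynatomic n).map (toK K)) := by
  intro hirr
  have hmon : ((dynatomic n).map (toK K)).Monic := (dynatomic_monic n (by omega)).map _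
  have hp : Prime ((dynatomic n).map (toK K)) := hirr.prime
  have h1 : (dynatomic n).map (toK K) ∣ (dynNum n).map (toK K) := by
    rw [← dynDen_mul_dynatomic n (by omega), Polynomial.map_mul]
    exact dvd_mul_left _ _
  rw [map_dynNum] at h1
  obtain ⟨d, hd, h3⟩ := (Prime.dvd_finsetProd_iff hp _).1 h1
  have hd0 : 0 < d := Nat.pos_of_mem_divisors (Finset.mem_filter.1 hd).1
  obtain ⟨e, rfl⟩ : ∃ e, d = e + 1 := ⟨d - 1, by omega⟩
  rw [it_two] at h3
  have hs : (addP K (e + 1)) = ((addP K (e + 1)).roots.map (fun a => X - C a)).prod :=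
    (IsAlgClosed.splits (addP K (e + 1))).eq_prod_roots_of_monic (addP_monic e).1
  rw [hs, eval₂_multiset_prod, Multiset.map_map] at h3
  obtain ⟨a, _, h4⟩ := hp.exists_mem_multiset_map_dvd h3
  simp only [Function.comp_apply, eval₂_sub, eval₂_X, eval₂_C, RingHom.comp_apply] at h4
  have hq : (quad K - C (C a)).natDegree = 2 := by
    rw [quad]
    compute_degree!
  have h5 : (quad K - C (C a)) ≠ 0 := by
    intro h
    rw [h, natDegree_zero] at hq
    omega
  have h6 := natDegree_le_of_dvd h4 h5
  rw [hq, (dynatomic_monic n (by omega)).natDegree_map, natDegree_dynatomic n (by omega)] at h6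
  have := three_le_card_Ex n hn
  omega

/-- A quadratic polynomial in `x` with constant coefficient of degree one in `z`. -/
theorem irreducible_quadratic (a b : K) :
    Irreducible (X ^ 2 + C (C a) * X + C (X + C b) : K[X][X]) := by
  have hdeg : (X ^ 2 + C (C a) * X + C (X + C b) : K[X][X]).natDegree = 2 := by
    compute_degree!
  have hmon : (X ^ 2 + C (C a) * X + C (X + C b) : K[X][X]).Monic := by
    monicity!
  rw [hmon.irreducible_iff_roots_eq_zero_of_degree_le_three (by rw [hdeg]) (by rw [hdeg]; norm_num)]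
  rw [Multiset.eq_zero_iff_forall_notMem]
  intro r hr
  have h1 := isRoot_of_mem_roots hr
  simp only [IsRoot.def, eval_add, eval_pow, eval_mul, eval_X, eval_C] at h1
  have h2 : r * (r + C a) = - (X + C b) := by linear_combination h1
  have h3 : (- (X + C b) : K[X]).natDegree = 1 := by
    rw [natDegree_neg]; exact natDegree_X_add_C b
  rcases Nat.eq_zero_or_pos r.natDegree with h0 | h0
  · have h4 : (r * (r + C a)).natDegree ≤ 0 := by
      refine natDegree_mul_le.trans ?_
      have h5 : (r + C a).natDegree ≤ 0 := by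
        refine (natDegree_add_le _ _).trans ?_
        rw [h0, natDegree_C]; simp
      omega
    rw [h2, h3] at h4
    omega
  · have h5 : (r + C a).natDegree = r.natDegree := natDegree_add_C
    have hr0 : r ≠ 0 := by
      intro h; rw [h, natDegree_zero] at h0; omega
    have hr1 : r + C a ≠ 0 := by
      intro h; rw [h, natDegree_zero] at h5; omega
    have h6 := natDegree_mul hr0 hr1
    rw [h2, h3, h5] at h6
    omega

theorem dynatomic_one_map : (dynatomic 1).map (toK K)
    = X ^ 2 + C (C (-1)) * X + C (X + C 0) := by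
  have h := dynDen_mul_dynatomic 1 one_pos
  have hd : Nat.divisors 1 = {1} := by decide
  have h1 : dynDen 1 = 1 := by
    rw [dynDen, hd]
    have : ({1} : Finset ℕ).filter (fun d => ArithmeticFunction.moebius (1 / d) = -1) = ∅ := by
      ext d
      simp only [Finset.mem_filter, Finset.mem_singleton, Finset.notMem_empty, iff_false, not_and]
      rintro rfl h
      rw [Nat.div_one, ArithmeticFunction.moebius_apply_one] at h
      norm_num at h
    rw [this, Finset.prod_empty]
  have h2 : dynNum 1 = it ℤ 1 - X := by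
    rw [dynNum, hd]
    have : ({1} : Finset ℕ).filter (fun d => ArithmeticFunction.moebius (1 / d) = 1) = {1} := by
      ext d
      simp only [Finset.mem_filter, Finset.mem_singleton, and_iff_left_iff_imp]
      rintro rfl
      rw [Nat.div_one, ArithmeticFunction.moebius_apply_one]
    rw [this, Finset.prod_singleton]
  rw [h1, h2, one_mul] at h
  rw [h, Polynomial.map_sub, map_it, map_X, it, it]
  simp only [map_neg, map_one, map_zero, add_zero]
  ring

theorem dynatomic_two_map : (dynatomic 2).map (toK K)
    = X ^ 2 + C (C 1) * X + C (X + C 1) := by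
  have h := dynDen_mul_dynatomic 2 two_pos
  have hd : Nat.divisors 2 = {1, 2} := by decide
  have hm2 : ArithmeticFunction.moebius 2 = -1 :=
    ArithmeticFunction.moebius_apply_prime Nat.prime_two
  have h1 : dynDen 2 = it ℤ 1 - X := by
    rw [dynDen, hd]
    have : ({1, 2} : Finset ℕ).filter (fun d => ArithmeticFunction.moebius (2 / d) = -1) = {1} := by
      ext d
      simp only [Finset.mem_filter, Finset.mem_insert, Finset.mem_singleton]
      constructor
      · rintro ⟨rfl | rfl, h⟩
        · rfl
        · simp at h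
      · rintro rfl
        exact ⟨Or.inl rfl, by simpa using hm2⟩
    rw [this, Finset.prod_singleton]
  have h2 : dynNum 2 = it ℤ 2 - X := by
    rw [dynNum, hd]
    have : ({1, 2} : Finset ℕ).filter (fun d => ArithmeticFunction.moebius (2 / d) = 1) = {2} := by
      ext d
      simp only [Finset.mem_filter, Finset.mem_insert, Finset.mem_singleton]
      constructor
      · rintro ⟨rfl | rfl, h⟩
        · rw [Nat.div_one, hm2] at h; norm_num at h
        · rfl
      · rintro rfl
        exact ⟨Or.inr rfl, by simp⟩
    rw [this, Finset.prod_singleton]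
  rw [h1, h2] at h
  have h3 := congrArg (Polynomial.map (toK K)) h
  rw [Polynomial.map_mul, Polynomial.map_sub, Polynomial.map_sub, map_it, map_it, map_X] at h3
  have h4 : (it K 1 - X) ≠ 0 := (it_sub_X_monic K 1 one_pos).ne_zero
  refine mul_left_cancel₀ h4 ?_
  rw [h3, it, it, it]
  simp only [map_one, map_add]
  ring

theorem irreducible_small (n : ℕ) (hn : 1 ≤ n) (hn2 : n ≤ 2) :
    Irreducible ((dynatomic n).map (toK K)) := by
  interval_cases n
  · rw [dynatomic_one_map]; exact irreducible_quadratic _ _
  · rw [dynatomic_two_map]; exact irreducible_quadratic _ _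

end Pool.Agent.J6H89.Dyn
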