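import Pool.Agent.J6H89.Dyn.Filt

/-!
# The window lemma

For a set `T ⊆ {0, …, N-1}` of odd size at least three there is a polynomial `G` in `x` and `z`
such that the coefficient of `t ^ 2` of `G` at the point of a sequence `ε` depends only on
`ε 0, …, ε N`, and its dependence on `ε N` is through the Walsh character of `T ∪ {N}`.
-/

namespace Pool.Agent.J6H89.Dyn

open Finset Polynomial

variable {K : Type*} [Field K]

theorem FI.sum {ι : Type*} (s : Finset ι) {m : ℤ} {x : ι → LaurentSeries K}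
    (h : ∀ i ∈ s, FI m (x i)) : FI m (∑ i ∈ s, x i) := by
  classical
  induction s using Finset.induction_on with
  | empty => simpa using FI.zero m
  | insert a s ha ih =>
    rw [Finset.sum_insert ha]
    exact (h a (Finset.mem_insert_self a s)).add
      (ih (fun i hi => h i (Finset.mem_insert_of_mem hi)))

/-- All coefficients of the polynomial lie in the `m`-th step of the filtration. -/
def PI (m : ℤ) (P : (LaurentSeries K)[X]) : Prop := ∀ j, FI m (P.coeff j)

theorem PI.mono {m n : ℤ} (h : n ≤ m) {P : (LaurentSeries K)[X]} (hP : PI m P) : PI n P :=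
  fun j => (hP j).mono h

theorem PI.zero (m : ℤ) : PI m (0 : (LaurentSeries K)[X]) := fun j => by
  simpa using FI.zero m

theorem PI.add {m : ℤ} {P Q : (LaurentSeries K)[X]} (hP : PI m P) (hQ : PI m Q) :
    PI m (P + Q) := fun j => by
  rw [coeff_add]; exact (hP j).add (hQ j)

theorem PI.mul {m n : ℤ} {P Q : (LaurentSeries K)[X]} (hP : PI m P) (hQ : PI n Q) :
    PI (m + n) (P * Q) := fun j => by
  rw [coeff_mul]
  exact FI.sum _ (fun ij _ => (hP _).mul (hQ _))

theorem PI.C {m : ℤ} {x : LaurentSeries K} (hx : FI m x) : PI m (Polynomial.C x) := fun j => by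
  rw [coeff_C]
  split_ifs
  · exact hx
  · exact FI.zero m

theorem PI.X : PI (0 : ℤ) (Polynomial.X : (LaurentSeries K)[X]) := fun j => by
  rw [coeff_X]
  split_ifs
  · intro k hk
    rw [← HahnSeries.single_zero_one]
    exact HahnSeries.coeff_single_of_ne (ne_of_lt hk)
  · exact FI.zero 0

theorem FI.two_mul {m : ℤ} {x : LaurentSeries K} (hx : FI m x) : FI m (2 * x) := by
  rw [_root_.two_mul]; exact hx.add hx

/-- The increment of a polynomial along a segment, modulo higher order terms. -/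
theorem eval_diff_coeff (H : (LaurentSeries K)[X]) (m : ℤ) (lam : LaurentSeries K)
    (R : (LaurentSeries K)[X]) (hH : derivative H = Polynomial.C lam + R)
    (hR : PI (m + 1) R) (hinv : ∀ j : ℕ, 0 < j → j ≤ H.natDegree → (j : K) ≠ 0) :
    (H.eval 1 - H.eval 0).coeff m = lam.coeff m := by
  have h1 : H.eval 1 = ∑ j ∈ range (H.natDegree + 1), H.coeff j := by
    rw [eval_eq_sum_range]; simp
  rw [h1, ← coeff_zero_eq_eval_zero, Finset.sum_range_succ']
  rw [add_sub_cancel_right]
  rcases Nat.eq_zero_or_pos H.natDegree with h0 | hpos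
  · rw [h0]
    simp only [Finset.range_zero, Finset.sum_empty, HahnSeries.coeff_zero]
    have hc : derivative H = 0 := by
      rw [Polynomial.eq_C_of_natDegree_eq_zero h0, derivative_C]
    rw [hc] at hH
    have h2 := congrArg (fun P => Polynomial.coeff P 0) hH
    simp only [coeff_zero, coeff_add, coeff_C_zero] at h2
    have h3 : lam = - R.coeff 0 := by linear_combination -h2
    rw [h3]
    simp [hR 0 m (by omega)]
  · obtain ⟨D, hD⟩ : ∃ D, H.natDegree = D + 1 := ⟨H.natDegree - 1, by omega⟩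
    rw [hD, Finset.sum_range_succ']
    have h4 : ∀ j, H.coeff (j + 1) * ((j : LaurentSeries K) + 1) = (Polynomial.C lam + R).coeff j := by
      intro j
      rw [← hH, coeff_derivative]
    have h5 : H.coeff (0 + 1) = lam + R.coeff 0 := by
      have := h4 0
      simpa using this
    have h6 : FI (m + 1) (∑ k ∈ range D, H.coeff (k + 1 + 1)) := by
      refine FI.sum _ (fun k hk => ?_)
      rw [Finset.mem_range] at hk
      have h7 := h4 (k + 1)
      rw [coeff_add, coeff_C_succ, zero_add] at h7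
      have hk' : ((k + 2 : ℕ) : K) ≠ 0 := hinv (k + 2) (by omega) (by omega)
      have h8 : H.coeff (k + 1 + 1) = HahnSeries.C ((k + 2 : ℕ) : K)⁻¹ * R.coeff (k + 1) := by
        rw [← h7]
        have h9 : (((k + 1 : ℕ) : LaurentSeries K) + 1) = HahnSeries.C ((k + 2 : ℕ) : K) := by
          rw [map_natCast]; push_cast; ring
        rw [h9]
        have h10 : (HahnSeries.C ((k + 2 : ℕ) : K)⁻¹ : LaurentSeries K)
            * HahnSeries.C ((k + 2 : ℕ) : K) = 1 := by
          rw [← map_mul, inv_mul_cancel₀ hk', map_one]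
        linear_combination (-(H.coeff (k + 1 + 1))) * h10
      rw [h8]
      have h11 : FI (0 : ℤ) (HahnSeries.C ((k + 2 : ℕ) : K)⁻¹ : LaurentSeries K) := by
        exact FI.single _
      have := h11.mul (hR (k + 1))
      rwa [zero_add] at this
    rw [HahnSeries.coeff_add, h5, HahnSeries.coeff_add, h6 m (by omega), hR 0 m (by omega)]
    ring

/-- The segment between two points, as a polynomial. -/
noncomputable def seg (ε ε' : ℕ → Bool) : (LaurentSeries K)[X] :=
  Polynomial.C (X0 ε') + Polynomial.C (X0 ε - X0 ε') * Polynomial.X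

theorem it_seg (h2 : (2 : K) ≠ 0) (N : ℕ) (ε ε' : ℕ → Bool) (h : ∀ i < N, ε i = ε' i)
    (i : ℕ) (hi : i ≤ N) :
    ∃ D : (LaurentSeries K)[X], PI (N - 1 - i) D ∧
      ((it K i).map (ev K)).comp (seg ε ε') = Polynomial.C (X0 (sh^[i] ε')) + D := by
  induction i with
  | zero =>
    refine ⟨Polynomial.C (X0 ε - X0 ε') * Polynomial.X, ?_, ?_⟩
    · have := (PI.C (X0_sub_FI (K := K) N ε ε' h)).mul PI.X
      simpa using this
    · simp [it, seg]
  | succ i ih =>
    obtain ⟨D, hD, hE⟩ := ih (by omega)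
    refine ⟨2 * (Polynomial.C (X0 (sh^[i] ε')) * D) + D * D, ?_, ?_⟩
    · have h3 : PI ((N : ℤ) - 1 - (i + 1 : ℕ)) (Polynomial.C (X0 (sh^[i] ε') : LaurentSeries K) * D) := by
        refine ((PI.C (X0_FI (K := K) (sh^[i] ε'))).mul hD).mono ?_
        push_cast; omega
      have h4 : PI ((N : ℤ) - 1 - (i + 1 : ℕ)) (D * D) := by
        refine (hD.mul hD).mono ?_
        push_cast; omega
      have h5 : (2 : (LaurentSeries K)[X]) * (Polynomial.C (X0 (sh^[i] ε')) * D)
          = Polynomial.C (X0 (sh^[i] ε')) * D + Polynomial.C (X0 (sh^[i] ε')) * D := by ring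
      rw [h5]
      exact (h3.add h3).add h4
    · rw [it, Polynomial.map_add, Polynomial.map_pow, add_comp, pow_comp, hE, map_C, C_comp,
        Function.iterate_succ_apply', ← X0_sq h2]
      have : ev K X = zL K := by simp [ev]
      rw [this]
      simp only [map_add, map_pow]
      ring

theorem prod_seg (h2 : (2 : K) ≠ 0) (N : ℕ) (ε ε' : ℕ → Bool) (h : ∀ i < N, ε i = ε' i)
    (S : Finset ℕ) (hS : ∀ i ∈ S, i < N) :
    ∃ (lam : LaurentSeries K) (R : (LaurentSeries K)[X]),
      FI (-(S.card : ℤ)) lam ∧ lam.coeff (-(S.card : ℤ)) = ∏ i ∈ S, sg K (ε i) ∧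
      PI (-(S.card : ℤ) + 1) R ∧
      ((∏ i ∈ S, it K i).map (ev K)).comp (seg ε ε') = Polynomial.C lam + R := by
  classical
  induction S using Finset.induction_on with
  | empty =>
    refine ⟨1, 0, ?_, ?_, PI.zero _, ?_⟩
    · rw [← HahnSeries.single_zero_one]; exact FI.single _
    · simp
    · simp
  | insert a S ha ih =>
    obtain ⟨lam, R, h1, h3, h4, h5⟩ := ih (fun i hi => hS i (Finset.mem_insert_of_mem hi))
    have haN := hS a (Finset.mem_insert_self a S)
    obtain ⟨D, hD, hE⟩ := it_seg h2 N ε ε' h a haN.le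
    have hD0 : PI 0 D := hD.mono (by omega)
    refine ⟨X0 (sh^[a] ε') * lam, Polynomial.C (X0 (sh^[a] ε')) * R + D * Polynomial.C lam + D * R,
      ?_, ?_, ?_, ?_⟩
    · have := (X0_FI (K := K) (sh^[a] ε')).mul h1
      rw [Finset.card_insert_of_notMem ha]
      refine this.mono ?_
      push_cast; omega
    · have := (X0_FI (K := K) (sh^[a] ε')).coeff_mul h1
      rw [Finset.card_insert_of_notMem ha, Finset.prod_insert ha, ← h3]
      have e : -(((S.card + 1 : ℕ)) : ℤ) = -1 + -(S.card : ℤ) := by push_cast; ring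
      rw [e, this, X0_coeff_neg_one, sh_iterate, add_zero, h a haN]
    · rw [Finset.card_insert_of_notMem ha]
      have e : -(((S.card + 1 : ℕ)) : ℤ) + 1 = -(S.card : ℤ) := by push_cast; ring
      rw [e]
      refine PI.add (PI.add ?_ ?_) ?_
      · refine ((PI.C (X0_FI (K := K) (sh^[a] ε'))).mul h4).mono (by omega)
      · refine (hD0.mul (PI.C h1)).mono (by omega)
      · refine (hD0.mul h4).mono (by omega)
    · rw [Finset.prod_insert ha, Polynomial.map_mul, mul_comp, hE, h5, map_mul]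
      ring

theorem exists_primitive (g : K[X][X]) (hinv : ∀ j : ℕ, 0 < j → j ≤ g.natDegree + 1 → (j : K) ≠ 0) :
    ∃ G : K[X][X], derivative G = g ∧ G.natDegree ≤ g.natDegree + 1 := by
  refine ⟨∑ k ∈ range (g.natDegree + 1),
    monomial (k + 1) (Polynomial.C (((k + 1 : ℕ) : K)⁻¹) * g.coeff k), ?_, ?_⟩
  · rw [derivative_sum]
    conv_rhs => rw [g.as_sum_range]
    refine Finset.sum_congr rfl (fun k hk => ?_)
    rw [Finset.mem_range] at hk
    rw [derivative_monomial, Nat.add_sub_cancel]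
    congr 1
    have h1 : ((k + 1 : ℕ) : K[X]) = Polynomial.C ((k + 1 : ℕ) : K) := by simp
    have h3 : (Polynomial.C (((k + 1 : ℕ) : K)⁻¹) : K[X]) * Polynomial.C ((k + 1 : ℕ) : K) = 1 := by
      rw [← map_mul, inv_mul_cancel₀ (hinv (k + 1) (by omega) (by omega)), map_one]
    rw [h1]
    linear_combination (g.coeff k) * h3
  · refine Polynomial.natDegree_sum_le_of_forall_le _ _ (fun k hk => ?_)
    rw [Finset.mem_range] at hk
    refine (natDegree_monomial_le _).trans (by omega)

theorem it_natDegree_le (i : ℕ) : (it K i).natDegree ≤ 2 ^ i := by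
  induction i with
  | zero => simp [it]
  | succ i ih =>
    rw [it]
    refine (natDegree_add_le _ _).trans ?_
    rw [natDegree_C]
    refine max_le ?_ (Nat.zero_le _)
    refine natDegree_pow_le.trans ?_
    rw [pow_succ]
    omega

theorem zL_pow (a : ℕ) : (zL K) ^ a = HahnSeries.single (-(2 * a : ℤ)) ((-1) ^ a) := by
  have h : a • (-2 : ℤ) = -(2 * a : ℤ) := by
    rw [nsmul_eq_mul]
    ring
  rw [zL, HahnSeries.single_pow, h]

theorem sum_two_pow_ge (T : Finset ℕ) (h : 3 ≤ T.card) : 7 ≤ ∑ i ∈ T, 2 ^ i := by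
  by_contra hlt
  rw [not_le] at hlt
  have h1 : T ⊆ range 3 := by
    intro i hi
    rw [Finset.mem_range]
    by_contra hi3
    have h4 : 2 ^ i ≤ ∑ i ∈ T, 2 ^ i := Finset.single_le_sum (f := fun i => 2 ^ i)
      (fun _ _ => Nat.zero_le _) hi
    have h5 : 2 ^ 3 ≤ 2 ^ i := Nat.pow_le_pow_right (by norm_num) (by omega)
    omega
  have h6 : T = range 3 := Finset.eq_of_subset_of_card_le h1 (by simpa using h)
  rw [h6] at hlt
  simp [Finset.sum_range_succ] at hlt

/-- The window lemma. -/
theorem window (h2 : (2 : K) ≠ 0) (N : ℕ) (T : Finset ℕ) (hT : ∀ i ∈ T, i < N) (a : ℕ)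
    (ha : T.card = 2 * a + 3) (hinv : ∀ m : ℕ, 0 < m → m + 7 ≤ 2 ^ N → (m : K) ≠ 0) :
    ∃ (G : K[X][X]) (c : K), c ≠ 0 ∧ ∀ ε ε' : ℕ → Bool, (∀ i < N, ε i = ε' i) →
      (G.eval₂ (ev K) (X0 ε)).coeff 2 - (G.eval₂ (ev K) (X0 ε')).coeff 2
        = c * (∏ i ∈ T, sg K (ε i)) * (sg K (ε N) - sg K (ε' N)) := by
  classical
  set S : Finset ℕ := range N \ T with hSdef
  have hTN : T ⊆ range N := fun i hi => Finset.mem_range.2 (hT i hi)
  have hScard : (S.card : ℤ) = N - (2 * a + 3) := by
    have := Finset.card_sdiff_add_card_eq_card hTN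
    rw [Finset.card_range] at this
    rw [hSdef]
    omega
  have hSN : ∀ i ∈ S, i < N := fun i hi => by
    rw [hSdef, Finset.mem_sdiff, Finset.mem_range] at hi
    exact hi.1
  set g : K[X][X] := Polynomial.C (X ^ a) * ∏ i ∈ S, it K i with hg
  have hdeg : g.natDegree + 8 ≤ 2 ^ N := by
    have h3 : (∏ i ∈ S, it K i).natDegree ≤ ∑ i ∈ S, 2 ^ i :=
      (natDegree_prod_le _ _).trans (Finset.sum_le_sum (fun i _ => it_natDegree_le i))
    have h4 : g.natDegree ≤ (∏ i ∈ S, it K i).natDegree := natDegree_C_mul_le _ _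
    have h5 : ∑ i ∈ S, 2 ^ i + ∑ i ∈ T, 2 ^ i = ∑ i ∈ range N, 2 ^ i :=
      Finset.sum_sdiff hTN
    have h6 := sum_two_pow_ge T (by omega)
    have h7 : ∑ i ∈ range N, 2 ^ i + 1 = 2 ^ N := by
      have := Nat.geomSum_eq (le_refl 2) N
      have h8 : 1 ≤ 2 ^ N := Nat.one_le_two_pow
      rw [this]; omega
    omega
  obtain ⟨G, hG, hGd⟩ := exists_primitive g (fun j hj hj' => hinv j hj (by omega))
  refine ⟨G, (-1) ^ a * (1 / 2 : K) ^ N, ?_, ?_⟩
  · refine mul_ne_zero (pow_ne_zero _ (by norm_num)) (pow_ne_zero _ ?_)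
    simpa using h2
  intro ε ε' h
  obtain ⟨lam, R, hl1, hl2, hR, hE⟩ := prod_seg h2 N ε ε' h S hSN
  set H : (LaurentSeries K)[X] := (G.map (ev K)).comp (seg ε ε') with hH
  have e1 : H.eval 1 = G.eval₂ (ev K) (X0 ε) := by
    rw [hH, eval_comp, seg]
    simp [eval_map]
  have e0 : H.eval 0 = G.eval₂ (ev K) (X0 ε') := by
    rw [hH, eval_comp, seg]
    simp [eval_map]
  set del : LaurentSeries K := X0 ε - X0 ε' with hdel
  have hdel1 : FI ((N : ℤ) - 1) del := X0_sub_FI N ε ε' h
  have hdel2 := X0_sub_coeff (K := K) N ε ε' h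
  have hz : FI (-(2 * a : ℤ)) ((zL K) ^ a) := by rw [zL_pow]; exact FI.single _
  have hz2 : ((zL K) ^ a).coeff (-(2 * a : ℤ)) = (-1) ^ a := by
    rw [zL_pow, HahnSeries.coeff_single_same]
  have hder : derivative H = Polynomial.C (zL K ^ a * lam * del)
      + Polynomial.C (zL K ^ a) * R * Polynomial.C del := by
    rw [hH, derivative_comp, derivative_map, hG, hg, Polynomial.map_mul, mul_comp, hE, map_C,
      C_comp]
    have e2 : ev K (X ^ a) = zL K ^ a := by simp [ev]
    have e3 : derivative (seg ε ε') = (Polynomial.C del : (LaurentSeries K)[X]) := by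
      rw [seg]; simp [hdel]
    rw [e2, e3]
    simp only [map_mul]
    ring
  have hRR : PI (2 + 1 : ℤ) (Polynomial.C (zL K ^ a) * R * Polynomial.C del) := by
    refine (((PI.C hz).mul hR).mul (PI.C hdel1)).mono ?_
    omega
  have hHd : H.natDegree ≤ G.natDegree := by
    rw [hH]
    refine natDegree_comp_le.trans ?_
    have h3 : (seg ε ε' : (LaurentSeries K)[X]).natDegree ≤ 1 := by
      rw [seg]
      refine (natDegree_add_le _ _).trans ?_
      rw [natDegree_C]
      refine max_le (Nat.zero_le _) ?_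
      refine (natDegree_C_mul_le _ _).trans natDegree_X_le
    have h4 : (G.map (ev K)).natDegree ≤ G.natDegree := natDegree_map_le
    nlinarith
  have key := eval_diff_coeff H 2 _ _ hder hRR
    (fun j hj hj' => hinv j hj (by omega))
  rw [e1, e0, HahnSeries.coeff_sub] at key
  rw [key]
  have h3 : (zL K ^ a * lam * del).coeff 2
      = ((-1) ^ a * ∏ i ∈ S, sg K (ε i)) * ((1 / 2 : K) ^ N * (∏ i ∈ range N, sg K (ε i))
        * (sg K (ε N) - sg K (ε' N))) := by
    have h4 := (hz.mul hl1).coeff_mul hdel1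
    have h5 := hz.coeff_mul hl1
    rw [hz2, hl2] at h5
    rw [h5, hdel2] at h4
    have e : (-(2 * a : ℤ) + -(S.card : ℤ)) + ((N : ℤ) - 1) = 2 := by omega
    rw [e] at h4
    exact h4
  rw [h3]
  have h6 : (∏ i ∈ range N, sg K (ε i)) = (∏ i ∈ S, sg K (ε i)) * ∏ i ∈ T, sg K (ε i) := by
    rw [hSdef, Finset.prod_sdiff hTN]
  have h7 : (∏ i ∈ S, sg K (ε i)) * (∏ i ∈ S, sg K (ε i)) = 1 := by
    rw [← Finset.prod_mul_distrib]
    exact Finset.prod_eq_one (fun i _ => sg_mul_self _)
  rw [h6]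
  linear_combination ((-1) ^ a * (1 / 2 : K) ^ N * (∏ i ∈ T, sg K (ε i))
    * (sg K (ε N) - sg K (ε' N))) * h7

end Pool.Agent.J6H89.Dyn
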